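import Pool.Agent.Helper6.Shape.One
import Pool.Agent.Helper57.PC.UpperHalf

open MeasureTheory Filter Topology Set
open scoped ENNReal CompactlySupported
open Pool.Agent.Helper57.PC Pool.Agent.Helper57.Zeta

namespace Pool.Agent.Helper6.Shape

/-- Level repulsion of the density. -/
lemma pcDensity_le_sq {u : ℝ} (hu : 0 < u) : pcDensity u ≤ Real.pi ^ 2 * u ^ 2 := by
  have hpi := Real.pi_pos
  have hx : 0 < Real.pi * u := by positivity
  unfold pcDensity
  set x := Real.pi * u with hxdef
  have hx2 : Real.pi ^ 2 * u ^ 2 = x ^ 2 := by rw [hxdef]; ring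
  rw [hx2]
  rcases le_or_gt x 1 with h | h
  · have h1 := Real.sin_gt_sub_cube hx
    have h2 : 1 - x ^ 2 / 6 < Real.sin x / x := by
      rw [lt_div_iff₀ hx]
      have : (1 - x ^ 2 / 6) * x = x - x ^ 3 / 6 := by ring
      rw [this]
      exact h1
    have h3 : 0 ≤ 1 - x ^ 2 / 6 := by nlinarith
    have h4 : (1 - x ^ 2 / 6) ^ 2 ≤ (Real.sin x / x) ^ 2 := pow_le_pow_left₀ h3 h2.le 2
    nlinarith [sq_nonneg (x ^ 2)]
  · have h1 : 0 ≤ (Real.sin x / x) ^ 2 := sq_nonneg _
    nlinarith

/-- Density in logarithmic coordinate. -/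
noncomputable def fd (t : ℝ) : ℝ := pcDensity (Real.exp t) * Real.exp t

lemma continuousOn_pcDensity : ContinuousOn pcDensity (Ioi 0) := by
  unfold pcDensity
  intro u hu
  have hu0 : Real.pi * u ≠ 0 := mul_ne_zero Real.pi_ne_zero (ne_of_gt hu)
  apply ContinuousAt.continuousWithinAt
  apply ContinuousAt.sub continuousAt_const
  apply ContinuousAt.pow
  apply ContinuousAt.div _ _ hu0
  · fun_prop
  · fun_prop

lemma fd_cont : Continuous fd := by
  unfold fd
  apply Continuous.mul _ Real.continuous_exp
  exact continuousOn_pcDensity.comp_continuous Real.continuous_exp fun t => Real.exp_pos t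

lemma fd_nonneg (t : ℝ) : 0 ≤ fd t := mul_nonneg (pcDensity_nonneg _) (Real.exp_pos _).le

lemma fd_dens : Dens fd := by
  refine ⟨fd_cont, fd_nonneg, ?_⟩
  have hm1 : Measurable (fun t : ℝ => ENNReal.ofReal (Real.exp (-2 * t))) := by fun_prop
  have hm2 : Measurable (fun t : ℝ => ENNReal.ofReal (fd t)) := fd_cont.measurable.ennreal_ofReal
  rw [lintegral_withDensity_eq_lintegral_mul _ hm2 hm1]
  set g : ℝ → ℝ := fun t => (Iic (0:ℝ)).indicator (fun t => Real.pi ^ 2 * Real.exp t) t +
    (Ioi (0:ℝ)).indicator (fun t => Real.exp (-t)) t with hg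
  have hgint : Integrable g := by
    apply Integrable.add
    · rw [integrable_indicator_iff measurableSet_Iic]
      exact (integrableOn_exp_Iic 0).const_mul _
    · rw [integrable_indicator_iff measurableSet_Ioi]
      exact integrableOn_exp_neg_Ioi 0
  refine lt_of_le_of_lt (lintegral_mono (g := fun t => ENNReal.ofReal (g t)) ?_) ?_
  · intro t
    simp only [Pi.mul_apply]
    rw [← ENNReal.ofReal_mul (fd_nonneg t)]
    apply ENNReal.ofReal_le_ofReal
    have he : Real.exp t * Real.exp (-2 * t) = Real.exp (-t) := by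
      rw [← Real.exp_add]; congr 1; ring
    have he2 : Real.exp t ^ 2 * Real.exp (-t) = Real.exp t := by
      rw [← Real.exp_nat_mul, ← Real.exp_add]; congr 1; push_cast; ring
    have h0 : fd t * Real.exp (-2 * t) = pcDensity (Real.exp t) * Real.exp (-t) := by
      unfold fd; rw [mul_assoc, he]
    rw [h0, hg]
    simp only
    rcases le_or_gt t 0 with ht | ht
    · rw [indicator_of_mem (show t ∈ Iic (0:ℝ) from ht),
        indicator_of_notMem (show t ∉ Ioi (0:ℝ) from not_lt.mpr ht), add_zero]
      calc pcDensity (Real.exp t) * Real.exp (-t) ≤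
          (Real.pi ^ 2 * Real.exp t ^ 2) * Real.exp (-t) :=
            mul_le_mul_of_nonneg_right (pcDensity_le_sq (Real.exp_pos t)) (Real.exp_pos _).le
        _ = Real.pi ^ 2 * (Real.exp t ^ 2 * Real.exp (-t)) := by ring
        _ = _ := by rw [he2]
    · rw [indicator_of_notMem (show t ∉ Iic (0:ℝ) from not_le.mpr ht),
        indicator_of_mem (show t ∈ Ioi (0:ℝ) from ht), zero_add]
      calc pcDensity (Real.exp t) * Real.exp (-t) ≤ 1 * Real.exp (-t) :=
            mul_le_mul_of_nonneg_right (pcDensity_le_one _) (Real.exp_pos _).le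
        _ = _ := one_mul _
  · exact hgint.lintegral_lt_top

/-- Exponential change of variables. -/
lemma integral_exp_cov (F : ℝ → ℝ) :
    ∫ u in Ioi (0:ℝ), F u = ∫ t, F (Real.exp t) * Real.exp t := by
  have h := integral_image_eq_integral_abs_deriv_smul (s := (univ : Set ℝ)) (f := Real.exp)
    (f' := Real.exp) MeasurableSet.univ
    (fun x _ => (Real.hasDerivAt_exp x).hasDerivWithinAt) Real.exp_injective.injOn F
  rw [image_univ, Real.range_exp, Measure.restrict_univ] at h
  rw [h]
  congr 1
  ext t
  rw [abs_of_pos (Real.exp_pos t), smul_eq_mul, mul_comm]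

lemma Ph_eq (g : ℝ → ℝ) (τ : ℝ) :
    Ph (fun t => g (Real.exp t)) fd τ = ∫ u in Ioi (0:ℝ), g (u / Real.exp τ) * pcDensity u := by
  rw [integral_exp_cov]
  unfold Ph fd
  congr 1
  ext t
  simp only
  rw [Real.exp_sub]
  ring

lemma shp_of (g : ℝ → ℝ) (hm : Measurable g) (h0 : ∀ u, 0 ≤ g u) (hb : ∃ M, ∀ u, g u ≤ M)
    {a b : ℝ} (ha : 0 < a) (hs : ∀ u, u ∉ Icc a b → g u = 0)
    {p q c : ℝ} (hpq : p < q) (hc : 0 < c) (hl : ∀ u ∈ Ioo p q, c ≤ g u) :
    Shp (fun t => g (Real.exp t)) := by
  -- the interval (p,q) lies in [a,b]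
  have hp : a ≤ p := by
    by_contra h
    rw [not_le] at h
    have h1 : (max p (p - 1) + min a q) / 2 ∈ Ioo p q := by
      have h2 : max p (p - 1) = p := max_eq_left (by linarith)
      rw [h2]
      have h3 : p < min a q := lt_min h hpq
      have h4 := min_le_right a q
      constructor <;> linarith
    have h2 := hl _ h1
    have h3 : max p (p - 1) = p := max_eq_left (by linarith)
    have h5 : (max p (p - 1) + min a q) / 2 ∉ Icc a b := by
      intro h6
      have h7 := h6.1
      rw [h3] at h7
      have h8 := min_le_left a q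
      linarith
    rw [hs _ h5] at h2
    linarith
  have hp0 : 0 < p := lt_of_lt_of_le ha hp
  refine ⟨hm.comp Real.measurable_exp, fun t => h0 _, ?_, ?_, ?_⟩
  · obtain ⟨M, hM⟩ := hb
    exact ⟨M, fun t => hM _⟩
  · refine ⟨max (|Real.log a|) (|b|), ?_⟩
    intro t ht
    apply hs
    intro h
    have h1 : Real.log a ≤ t := by
      have := Real.log_le_log ha h.1
      rwa [Real.log_exp] at this
    have h2 : t ≤ b := by
      have := Real.add_one_le_exp t
      linarith [h.2]
    have h3 : |t| ≤ max (|Real.log a|) (|b|) := by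
      rw [abs_le]
      constructor
      · have := neg_abs_le (Real.log a)
        have := le_max_left (|Real.log a|) (|b|)
        linarith
      · have := le_abs_self b
        have := le_max_right (|Real.log a|) (|b|)
        linarith
    linarith
  · have hq0 : 0 < q := lt_trans hp0 hpq
    set r : ℝ := (2 * p + q) / 3 with hr
    set s : ℝ := (p + 2 * q) / 3 with hs'
    have hr0 : 0 < r := by positivity
    have hs0 : 0 < s := by positivity
    refine ⟨Real.log r, Real.log s, c, Real.log_lt_log hr0 (by rw [hr, hs']; linarith), hc, ?_⟩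
    intro t ht
    apply hl
    have h1 : r ≤ Real.exp t := by
      have := Real.exp_le_exp.mpr ht.1
      rwa [Real.exp_log hr0] at this
    have h2 : Real.exp t ≤ s := by
      have := Real.exp_le_exp.mpr ht.2
      rwa [Real.exp_log hs0] at this
    constructor
    · have : p < r := by rw [hr]; linarith
      linarith
    · have : s < q := by rw [hs']; linarith
      linarith

end Pool.Agent.Helper6.Shape
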