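import Pool.Agent.Helper6.Shape.Two

open MeasureTheory Filter Topology Set
open scoped ENNReal CompactlySupported

namespace Pool.Agent.Helper6.Shape

/-- trapezoid -/
noncomputable def trap (A B δ : ℝ) (hδ : 0 < δ) : C_c(ℝ, ℝ) where
  toFun t := max 0 (min 1 (min (t - A) (B - t) / δ + 1))
  continuous_toFun := by fun_prop
  hasCompactSupport' := by
    apply HasCompactSupport.intro (isCompact_Icc (a := A - δ) (b := B + δ))
    intro t ht
    apply max_eq_left
    refine (min_le_right _ _).trans ?_
    rw [mem_Icc, not_and_or, not_le, not_le] at ht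
    have h1 : min (t - A) (B - t) ≤ -δ := by
      rcases ht with h | h
      · exact (min_le_left _ _).trans (by linarith)
      · exact (min_le_right _ _).trans (by linarith)
    have h2 : min (t - A) (B - t) / δ ≤ -1 := by
      rw [div_le_iff₀ hδ]; linarith
    linarith

lemma trap_le (A B δ : ℝ) (hδ : 0 < δ) (t : ℝ) :
    trap A B δ hδ t ≤ (Icc (A - δ) (B + δ)).indicator 1 t := by
  by_cases ht : t ∈ Icc (A - δ) (B + δ)
  · rw [indicator_of_mem ht]
    exact max_le (by norm_num) (min_le_left _ _)
  · rw [indicator_of_notMem ht]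
    apply le_of_eq
    show max 0 (min 1 (min (t - A) (B - t) / δ + 1)) = 0
    apply max_eq_left
    refine (min_le_right _ _).trans ?_
    rw [mem_Icc, not_and_or, not_le, not_le] at ht
    have h1 : min (t - A) (B - t) ≤ -δ := by
      rcases ht with h | h
      · exact (min_le_left _ _).trans (by linarith)
      · exact (min_le_right _ _).trans (by linarith)
    have h2 : min (t - A) (B - t) / δ ≤ -1 := by
      rw [div_le_iff₀ hδ]; linarith
    linarith

lemma le_trap (A B δ : ℝ) (hδ : 0 < δ) (t : ℝ) :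
    (Icc A B).indicator 1 t ≤ trap A B δ hδ t := by
  by_cases ht : t ∈ Icc A B
  · rw [indicator_of_mem ht]
    show (1:ℝ) ≤ max 0 (min 1 (min (t - A) (B - t) / δ + 1))
    apply le_max_of_le_right
    apply le_min le_rfl
    have h1 : 0 ≤ min (t - A) (B - t) := le_min (by linarith [ht.1]) (by linarith [ht.2])
    have h2 : 0 ≤ min (t - A) (B - t) / δ := by positivity
    linarith
  · rw [indicator_of_notMem ht]
    exact le_max_left _ _

variable {f : ℝ → ℝ} {ι κ : Type*}

lemma real_Icc (hf : Dens f) {p q : ℝ} (hpq : p ≤ q) :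
    (volume.withDensity fun t => ENNReal.ofReal (f t)).real (Icc p q) = ∫ t in p..q, f t := by
  rw [Measure.real, withDensity_apply _ measurableSet_Icc,
    ← ofReal_integral_eq_lintegral_ofReal hf.cont.integrableOn_Icc (ae_of_all _ fun t => hf.nonneg t),
    ENNReal.toReal_ofReal (integral_nonneg fun t => hf.nonneg t), integral_Icc_eq_integral_Ioc,
    intervalIntegral.integral_of_le hpq]

/-- Windows from vague convergence. -/
theorem Fam.windows (D : Fam ι κ) (l : Filter ι) (hf : Dens f)
    (hconv : ∀ φ : C_c(ℝ, ℝ), Tendsto (fun i => D.S i φ) l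
      (𝓝 (∫ t, φ t ∂(volume.withDensity fun t => ENNReal.ofReal (f t)))))
    {A B : ℝ} (hAB : A < B) :
    Tendsto (fun i => D.S i ((Icc A B).indicator 1)) l (𝓝 (∫ t in A..B, f t)) := by
  set μ := volume.withDensity fun t => ENNReal.ofReal (f t) with hμ
  have hμf : IsLocallyFiniteMeasure μ := IsLocallyFiniteMeasure.withDensity_ofReal hf.cont
  have hint : ∀ φ : C_c(ℝ, ℝ), Integrable φ μ := fun φ =>
    φ.continuous.integrable_of_hasCompactSupport φ.hasCompactSupport
  have hindint : ∀ p q : ℝ, Integrable ((Icc p q).indicator (1 : ℝ → ℝ)) μ := by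
    intro p q
    rw [integrable_indicator_iff measurableSet_Icc]
    exact integrableOn_const (hs := (isCompact_Icc.measure_lt_top (μ := μ)).ne)
  have hind : ∀ p q : ℝ, p ≤ q → ∫ t, (Icc p q).indicator (1 : ℝ → ℝ) t ∂μ = ∫ t in p..q, f t := by
    intro p q hpq
    rw [integral_indicator_one measurableSet_Icc, real_Icc hf hpq]
  set P : ℝ → ℝ := fun x => ∫ t in (0:ℝ)..x, f t with hP
  have hii : ∀ a b : ℝ, IntervalIntegrable f volume a b := fun a b => hf.cont.intervalIntegrable a b
  have hPc : Continuous P := intervalIntegral.continuous_primitive hii 0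
  have hPd : ∀ p q : ℝ, ∫ t in p..q, f t = P q - P p := by
    intro p q
    rw [hP]
    simp only
    rw [intervalIntegral.integral_interval_sub_left (hii _ _) (hii _ _)]
  rw [Metric.tendsto_nhds]
  intro ε hε
  -- choose δ
  have hc1 : Tendsto (fun δ : ℝ => P (B + δ) - P (A - δ)) (𝓝 0) (𝓝 (P B - P A)) := by
    have : Continuous (fun δ : ℝ => P (B + δ) - P (A - δ)) := by fun_prop
    have h2 := this.tendsto 0
    simpa using h2
  have hc2 : Tendsto (fun δ : ℝ => P (B - δ) - P (A + δ)) (𝓝 0) (𝓝 (P B - P A)) := by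
    have : Continuous (fun δ : ℝ => P (B - δ) - P (A + δ)) := by fun_prop
    have h2 := this.tendsto 0
    simpa using h2
  have he1 := hc1.eventually_lt_const (show P B - P A < P B - P A + ε by linarith)
  have he2 := hc2.eventually_const_lt (show P B - P A - ε < P B - P A by linarith)
  have he3 : ∀ᶠ δ : ℝ in 𝓝 0, δ < (B - A) / 2 := eventually_lt_nhds (by linarith)
  have hev := (he1.and (he2.and he3)).filter_mono (nhdsWithin_le_nhds (s := Ioi (0:ℝ)))
  obtain ⟨δ, ⟨h1, h2, h3⟩, hδ⟩ := (hev.and self_mem_nhdsWithin).exists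
  have hup := hconv (trap A B δ hδ)
  have hlo := hconv (trap (A + δ) (B - δ) δ hδ)
  have hup2 : ∫ t, trap A B δ hδ t ∂μ < (∫ t in A..B, f t) + ε := by
    calc ∫ t, trap A B δ hδ t ∂μ ≤ ∫ t, (Icc (A - δ) (B + δ)).indicator (1 : ℝ → ℝ) t ∂μ :=
          integral_mono (hint _) (hindint _ _) (trap_le A B δ hδ)
      _ = P (B + δ) - P (A - δ) := by rw [hind _ _ (by linarith), hPd]
      _ < P B - P A + ε := h1
      _ = _ := by rw [hPd]
  have hlo2 : (∫ t in A..B, f t) - ε < ∫ t, trap (A + δ) (B - δ) δ hδ t ∂μ := by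
    calc (∫ t in A..B, f t) - ε = P B - P A - ε := by rw [hPd]
      _ < P (B - δ) - P (A + δ) := h2
      _ = ∫ t, (Icc (A + δ) (B - δ)).indicator (1 : ℝ → ℝ) t ∂μ := by
          rw [hind _ _ (by linarith), hPd]
      _ ≤ _ := integral_mono (hindint _ _) (hint _) (le_trap _ _ δ hδ)
  filter_upwards [hup.eventually_lt_const hup2, hlo.eventually_const_lt hlo2] with i hi1 hi2
  rw [Real.dist_eq, abs_lt]
  constructor
  · have h4 : D.S i (trap (A + δ) (B - δ) δ hδ) ≤ D.S i ((Icc A B).indicator 1) := by
      apply D.S_mono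
      intro t
      have := trap_le (A + δ) (B - δ) δ hδ t
      simpa using this
    linarith
  · have h4 : D.S i ((Icc A B).indicator 1) ≤ D.S i (trap A B δ hδ) :=
      D.S_mono i (le_trap A B δ hδ)
    linarith

end Pool.Agent.Helper6.Shape
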