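import Pool.Agent.Helper57.PairDefs

open Pool.Agent.Helper57.PC

namespace Pool.Agent.Helper6.Shape

/-- The pair sum of a shape g at scale α: the sum over ordered pairs of nontrivial zeros with
ordinates in [0,T], counted with multiplicity, of g at the normalised difference of the ordinates
divided by α. -/
noncomputable def pairSum (g : ℝ → ℝ) (T α : ℝ) : ℝ :=
  ∑ᶠ p ∈ {p : ℂ × ℂ | p.1 ∈ zerosUpTo T ∧ p.2 ∈ zerosUpTo T},
    ((mult p.1 : ℝ) * (mult p.2 : ℝ) *
      g ((p.1.im - p.2.im) * Real.log T / (2 * Real.pi) / α))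

end Pool.Agent.Helper6.Shape
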