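import Pool.Agent.Helper6.Shape.AppA
import Pool.Agent.Helper6.Shape.AppB
import Pool.Agent.Helper6.Shape.PairSum

open MeasureTheory Filter Topology Set
open scoped ENNReal CompactlySupported
open Pool.Agent.Helper57.PC Pool.Agent.Helper57.Zeta

namespace Pool.Agent.Helper6.Shape

lemma pairSum_eq (g : ℝ → ℝ) (T α : ℝ) :
    pairSum g T α = ∑ p ∈ Zf T ×ˢ Zf T, (mult p.1 : ℝ) * (mult p.2 : ℝ) * g (nd T p / α) := by
  classical
  unfold pairSum
  have hset : {p : ℂ × ℂ | p.1 ∈ zerosUpTo T ∧ p.2 ∈ zerosUpTo T} =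
      ((Zf T ×ˢ Zf T : Finset (ℂ × ℂ)) : Set (ℂ × ℂ)) := by
    ext p
    simp only [mem_ofPred_eq, Finset.coe_product, mem_prod, Finset.mem_coe, mem_Zf]
    rfl
  rw [hset, finsum_mem_coe_finset]
  rfl

open Classical in
/-- The family of normalised positive differences in logarithmic coordinate. -/
noncomputable def DT : Fam ℝ (ℂ × ℂ) where
  Z T := (Zf T ×ˢ Zf T).filter (fun p => 0 < nd T p)
  w T p := (mult p.1 : ℝ) * (mult p.2 : ℝ) * |SN T|⁻¹
  x T p := Real.log (nd T p)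
  nonneg T p := by positivity

lemma DT_S {T : ℝ} (hT : 1 < T) (ψ : ℝ → ℝ) (hψ : ∀ u ≤ 0, ψ u = 0) :
    DT.S T (fun t => ψ (Real.exp t)) =
      (∑ p ∈ Zf T ×ˢ Zf T, (mult p.1 : ℝ) * (mult p.2 : ℝ) * ψ (nd T p)) / SN T := by
  classical
  unfold Fam.S DT
  simp only
  rw [Finset.sum_div, Finset.sum_filter]
  apply Finset.sum_congr rfl
  intro p _
  rw [abs_of_pos (SN_pos hT)]
  split_ifs with h
  · rw [Real.exp_log h]; ring
  · rw [hψ _ (not_lt.mp h)]; simp

lemma DT_shape {T : ℝ} (hT : 1 < T) {g : ℝ → ℝ} {a b : ℝ} (ha : 0 < a)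
    (hs : ∀ u, u ∉ Icc a b → g u = 0) (τ : ℝ) :
    DT.S T (fun t => g (Real.exp (t - τ))) = pairSum g T (Real.exp τ) / SN T := by
  have h1 : (fun t => g (Real.exp (t - τ))) = fun t => (fun u => g (u / Real.exp τ)) (Real.exp t) := by
    ext t
    simp only
    rw [Real.exp_sub]
  rw [h1, DT_S hT (fun u => g (u / Real.exp τ)), pairSum_eq]
  intro u hu
  apply hs
  intro h
  have h2 : u / Real.exp τ ≤ 0 := div_nonpos_of_nonpos_of_nonneg hu (Real.exp_pos τ).le
  linarith [h.1]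

lemma DT_window {T : ℝ} (hT : 1 < T) {α β : ℝ} (hα : 0 < α) (hαβ : α < β) :
    DT.S T ((Icc (Real.log α) (Real.log β)).indicator 1) = pairCount T α β / SN T := by
  classical
  have hβ : 0 < β := hα.trans hαβ
  have h1 : ((Icc (Real.log α) (Real.log β)).indicator (1 : ℝ → ℝ)) =
      fun t => (Icc α β).indicator (1 : ℝ → ℝ) (Real.exp t) := by
    ext t
    have h2 : t ∈ Icc (Real.log α) (Real.log β) ↔ Real.exp t ∈ Icc α β := by
      constructor
      · rintro ⟨h3, h4⟩
        exact ⟨(Real.log_le_iff_le_exp hα).mp h3, (Real.le_log_iff_exp_le hβ).mp h4⟩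
      · rintro ⟨h3, h4⟩
        exact ⟨(Real.log_le_iff_le_exp hα).mpr h3, (Real.le_log_iff_exp_le hβ).mpr h4⟩
    by_cases h3 : t ∈ Icc (Real.log α) (Real.log β)
    · rw [indicator_of_mem h3, indicator_of_mem (h2.mp h3)]; rfl
    · rw [indicator_of_notMem h3, indicator_of_notMem (fun h4 => h3 (h2.mpr h4))]
  rw [h1, DT_S hT, pairCount_eq]
  · congr 1
    apply Finset.sum_congr rfl
    intro p _
    by_cases h3 : nd T p ∈ Icc α β
    · rw [indicator_of_mem h3, if_pos h3]; simp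
    · rw [indicator_of_notMem h3, if_neg h3]; simp
  · intro u hu
    apply indicator_of_notMem
    intro h
    linarith [h.1]

lemma integral_fd {α β : ℝ} (hα : 0 < α) (hαβ : α < β) :
    ∫ t in (Real.log α)..(Real.log β), fd t = ∫ u in α..β, pcDensity u := by
  have hβ : 0 < β := hα.trans hαβ
  have h := intervalIntegral.integral_comp_mul_deriv' (a := Real.log α) (b := Real.log β)
    (f := Real.exp) (f' := Real.exp) (g := pcDensity)
    (fun x _ => Real.hasDerivAt_exp x) Real.continuous_exp.continuousOn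
    (continuousOn_pcDensity.mono (by
      rintro u ⟨t, _, rfl⟩
      exact Real.exp_pos t))
  rw [Real.exp_log hα, Real.exp_log hβ] at h
  rw [← h]
  rfl

/-- Windows of pairCount from vague convergence of the family DT. -/
lemma windows_of_vague
    (hconv : ∀ φ : C_c(ℝ, ℝ), Tendsto (fun i => DT.S i φ) atTop
      (𝓝 (∫ t, φ t ∂(volume.withDensity fun t => ENNReal.ofReal (fd t)))))
    {α β : ℝ} (hα : 0 < α) (hαβ : α < β) :
    Tendsto (fun T => pairCount T α β / (T * Real.log T / (2 * Real.pi))) atTop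
      (𝓝 (∫ u in α..β, pcDensity u)) := by
  have h1 := DT.windows atTop fd_dens hconv (Real.log_lt_log hα hαβ)
  rw [integral_fd hα hαβ] at h1
  refine h1.congr' ?_
  filter_upwards [eventually_gt_atTop 1] with T hT
  exact DT_window hT hα hαβ

/-- The two-sided theorem for the zeros of zeta. -/
theorem oneShape {g : ℝ → ℝ} (hm : Measurable g) (h0 : ∀ u, 0 ≤ g u) (hb : ∃ M, ∀ u, g u ≤ M)
    {a b : ℝ} (ha : 0 < a) (hs : ∀ u, u ∉ Icc a b → g u = 0)
    {p q c : ℝ} (hpq : p < q) (hc : 0 < c) (hl : ∀ u ∈ Ioo p q, c ≤ g u)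
    (hT : ∀ α : ℝ, 0 < α → Tendsto (fun T => pairSum g T α / (T * Real.log T / (2 * Real.pi)))
      atTop (𝓝 (∫ u in Ioi (0:ℝ), g (u / α) * pcDensity u)))
    {α β : ℝ} (hα : 0 < α) (hαβ : α < β) :
    Tendsto (fun T => pairCount T α β / (T * Real.log T / (2 * Real.pi))) atTop
      (𝓝 (∫ u in α..β, pcDensity u)) := by
  apply windows_of_vague _ hα hαβ
  apply DT.two_sided atTop (shp_of g hm h0 hb ha hs hpq hc hl) fd_dens
  intro τ
  rw [Ph_eq]
  refine (hT (Real.exp τ) (Real.exp_pos τ)).congr' ?_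
  filter_upwards [eventually_gt_atTop 1] with T hT
  exact (DT_shape hT ha hs τ).symm

end Pool.Agent.Helper6.Shape
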