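import Pool.Agent.Helper6.Shape.AppC

open MeasureTheory Filter Topology Set
open scoped ENNReal CompactlySupported
open Pool.Agent.Helper57.PC Pool.Agent.Helper57.Zeta

namespace Pool.Agent.Helper6.Shape

/-- Fejer weight of the density. -/
lemma integral_tri_le (η : ℝ) (hη : 0 < η) : ∃ b₀ : ℝ, 0 < b₀ ∧ ∀ b : ℝ, b₀ ≤ b →
    2 * ∫ u in (0:ℝ)..b, (b - u) * pcDensity u ≤ b ^ 2 - b + η * b := by
  obtain ⟨c, hc0, hc⟩ := integral_sq_half (η / 4) (by positivity)
  refine ⟨max c (2 * c / η), lt_max_of_lt_left hc0, ?_⟩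
  intro b hb
  have hbc : c ≤ b := (le_max_left _ _).trans hb
  have hb2 : 2 * c / η ≤ b := (le_max_right _ _).trans hb
  rw [div_le_iff₀ hη] at hb2
  have hb0 : 0 < b := by linarith
  have hii : ∀ x y : ℝ, IntervalIntegrable (fun u => (b - u) * Helper57.PC.sq u) volume x y := by
    intro x y
    exact (intervalIntegrable_sq x y).continuousOn_mul (by fun_prop)
  have hl : ∀ x y : ℝ, IntervalIntegrable (fun u : ℝ => b - u) volume x y := fun x y =>
    (by fun_prop : Continuous fun u : ℝ => b - u).intervalIntegrable x y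
  have h1 : ∫ u in (0:ℝ)..b, (b - u) * pcDensity u =
      (∫ u in (0:ℝ)..b, (b - u)) - ∫ u in (0:ℝ)..b, (b - u) * Helper57.PC.sq u := by
    rw [← intervalIntegral.integral_sub (hl 0 b) (hii 0 b)]
    congr 1
    ext u
    rw [pcDensity_eq]; ring
  have h2 : ∫ u in (0:ℝ)..b, (b - u) = b ^ 2 / 2 := by
    rw [intervalIntegral.integral_sub (by simp) (by simp), integral_id]
    simp
    ring
  have h3 : (b - c) * (1 / 2 - η / 4) ≤ ∫ u in (0:ℝ)..b, (b - u) * Helper57.PC.sq u := by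
    calc (b - c) * (1 / 2 - η / 4) ≤ (b - c) * ∫ u in (0:ℝ)..c, Helper57.PC.sq u :=
          mul_le_mul_of_nonneg_left (hc c le_rfl) (by linarith)
      _ = ∫ u in (0:ℝ)..c, (b - c) * Helper57.PC.sq u := by rw [intervalIntegral.integral_const_mul]
      _ ≤ ∫ u in (0:ℝ)..c, (b - u) * Helper57.PC.sq u := by
          apply intervalIntegral.integral_mono_on hc0.le
            ((intervalIntegrable_sq _ _).const_mul _) (hii _ _)
          intro u hu
          exact mul_le_mul_of_nonneg_right (by linarith [hu.2]) (sq_nonneg' u)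
      _ ≤ ∫ u in (0:ℝ)..b, (b - u) * Helper57.PC.sq u := by
          rw [← intervalIntegral.integral_add_adjacent_intervals (hii 0 c) (hii c b)]
          have : 0 ≤ ∫ u in c..b, (b - u) * Helper57.PC.sq u := by
            apply intervalIntegral.integral_nonneg hbc
            intro u hu
            exact mul_nonneg (by linarith [hu.2]) (sq_nonneg' u)
          linarith
  rw [h1, h2]
  nlinarith

lemma Tri_eq {b : ℝ} (hb : 0 < b) :
    Tri (volume.withDensity fun t => ENNReal.ofReal (fd t)) b =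
      ENNReal.ofReal (∫ u in (0:ℝ)..b, (b - u) * pcDensity u) := by
  unfold Tri
  have hfm : Measurable (fun t => ENNReal.ofReal (fd t)) := fd_cont.measurable.ennreal_ofReal
  rw [lintegral_withDensity_eq_lintegral_mul _ hfm (by fun_prop)]
  simp only [Pi.mul_apply]
  have e1 : ∀ t, ENNReal.ofReal (fd t) * ENNReal.ofReal (max 0 (b - Real.exp t)) =
      ENNReal.ofReal (max 0 (b - Real.exp t) * pcDensity (Real.exp t) * Real.exp t) := by
    intro t
    rw [← ENNReal.ofReal_mul (fd_nonneg t)]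
    congr 1
    unfold fd
    ring
  simp_rw [e1]
  have hint : Integrable (fun t => max 0 (b - Real.exp t) * pcDensity (Real.exp t) * Real.exp t) := by
    have hcont : Continuous (fun t => max 0 (b - Real.exp t) * pcDensity (Real.exp t) * Real.exp t) := by
      have h1 : Continuous fun t : ℝ => pcDensity (Real.exp t) :=
        continuousOn_pcDensity.comp_continuous Real.continuous_exp fun t => Real.exp_pos t
      fun_prop
    have hg : Integrable ((Iic b).indicator (fun t => b * Real.exp t)) := by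
      rw [integrable_indicator_iff measurableSet_Iic]
      exact (integrableOn_exp_Iic b).const_mul _
    apply hg.mono' hcont.aestronglyMeasurable
    refine ae_of_all _ fun t => ?_
    rw [Real.norm_of_nonneg (mul_nonneg (mul_nonneg (le_max_left _ _) (pcDensity_nonneg _))
      (Real.exp_pos _).le)]
    by_cases ht : t ∈ Iic b
    · rw [indicator_of_mem ht]
      apply mul_le_mul_of_nonneg_right _ (Real.exp_pos _).le
      calc max 0 (b - Real.exp t) * pcDensity (Real.exp t) ≤ b * 1 := by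
            apply mul_le_mul _ (pcDensity_le_one _) (pcDensity_nonneg _) hb.le
            exact max_le hb.le (by linarith [Real.exp_pos t])
        _ = b := mul_one b
    · rw [indicator_of_notMem ht]
      rw [mem_Iic, not_le] at ht
      have : b ≤ Real.exp t := by
        have := Real.add_one_le_exp t
        linarith
      rw [max_eq_left (by linarith)]
      simp
  rw [← ofReal_integral_eq_lintegral_ofReal hint (ae_of_all _ fun t =>
    mul_nonneg (mul_nonneg (le_max_left _ _) (pcDensity_nonneg _)) (Real.exp_pos _).le)]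
  congr 1
  rw [← integral_exp_cov (fun u => max 0 (b - u) * pcDensity u),
    intervalIntegral.integral_of_le hb.le]
  have h3 : ∫ u in Ioi (0:ℝ), max 0 (b - u) * pcDensity u =
      ∫ u in Ioc (0:ℝ) b, max 0 (b - u) * pcDensity u := by
    apply setIntegral_eq_of_subset_of_forall_sdiff_eq_zero measurableSet_Ioi (fun u hu => hu.1)
    intro u hu
    have : b < u := by
      by_contra h
      exact hu.2 ⟨hu.1, not_lt.mp h⟩
    rw [max_eq_left (by linarith), zero_mul]
  rw [h3]
  apply setIntegral_congr_fun measurableSet_Ioc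
  intro u hu
  simp only
  rw [max_eq_right (by linarith [hu.2])]

lemma tri_hyp : ∀ η : ℝ, 0 < η → ∃ b₀ : ℝ, ∀ b, b₀ ≤ b →
    2 * Tri (volume.withDensity fun t => ENNReal.ofReal (fd t)) b ≤
      ENNReal.ofReal (b ^ 2 - b + η * b) := by
  intro η hη
  obtain ⟨b₀, hb₀, h⟩ := integral_tri_le η hη
  refine ⟨b₀, fun b hb => ?_⟩
  have hb0 : 0 < b := by linarith
  rw [Tri_eq hb0, show (2 : ℝ≥0∞) = ENNReal.ofReal 2 by simp, ← ENNReal.ofReal_mul (by norm_num)]
  exact ENNReal.ofReal_le_ofReal (h b hb)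

lemma swap_sum (T : ℝ) (ψ : ℝ → ℝ) :
    ∑ p ∈ Zf T ×ˢ Zf T, (mult p.1 : ℝ) * (mult p.2 : ℝ) * ψ (- nd T p) =
      ∑ p ∈ Zf T ×ˢ Zf T, (mult p.1 : ℝ) * (mult p.2 : ℝ) * ψ (nd T p) := by
  have hnd : ∀ p : ℂ × ℂ, nd T p.swap = - nd T p := by
    intro p; unfold nd; simp only [Prod.fst_swap, Prod.snd_swap]; ring
  refine Finset.sum_bij' (fun p _ => p.swap) (fun p _ => p.swap) ?_ ?_ ?_ ?_ ?_
  · intro p hp
    rw [Finset.mem_product] at hp ⊢
    exact ⟨hp.2, hp.1⟩
  · intro p hp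
    rw [Finset.mem_product] at hp ⊢
    exact ⟨hp.2, hp.1⟩
  · intro p _; exact Prod.swap_swap p
  · intro p _; exact Prod.swap_swap p
  · intro p _
    rw [hnd]
    simp only [Prod.fst_swap, Prod.snd_swap]; ring

/-- Cauchy-Schwarz in terms of the family. -/
lemma CS_family {T b ε : ℝ} (hT : 1 < T) (hb : 0 < b) (hε : 0 < ε) :
    b ^ 2 * (2 * Real.pi / Real.log T) * NT T ^ 2 ≤
      (T + 2 * Real.pi * b / Real.log T) * (b * pairCount T (-ε) ε +
        2 * (SN T * DT.S T (fun t => if Real.log ε ≤ t then max 0 (b - Real.exp t) else 0))) := by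
  classical
  set L := Real.log T with hL
  have hL0 : 0 < L := Real.log_pos hT
  have hT0 : 0 < T := by linarith
  have hpi := Real.pi_pos
  set h : ℝ := 2 * Real.pi * b / L with hh
  have hh0 : 0 < h := by rw [hh]; positivity
  have hCS := window_CS (Zf T) (fun ρ => ρ.im) (fun ρ => (mult ρ : ℝ)) hh0 hT0 (by
    intro ρ hρ
    rw [mem_Zf] at hρ
    exact ⟨hρ.2.1, hρ.2.2⟩)
  set ψ : ℝ → ℝ := fun u => if ε ≤ u then max 0 (b - u) else 0 with hψ
  have hψ0 : ∀ u, 0 ≤ ψ u := by
    intro u; rw [hψ]; simp only; split_ifs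
    · exact le_max_left _ _
    · exact le_rfl
  have hfun : (fun t => if Real.log ε ≤ t then max 0 (b - Real.exp t) else 0) =
      fun t => ψ (Real.exp t) := by
    ext t
    rw [hψ]
    simp only
    by_cases h1 : Real.log ε ≤ t
    · rw [if_pos h1, if_pos ((Real.log_le_iff_le_exp hε).mp h1)]
    · rw [if_neg h1, if_neg (fun h2 => h1 ((Real.log_le_iff_le_exp hε).mpr h2))]
  have hSpos := SN_pos hT
  have hDS : SN T * DT.S T (fun t => if Real.log ε ≤ t then max 0 (b - Real.exp t) else 0) =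
      ∑ p ∈ Zf T ×ˢ Zf T, (mult p.1 : ℝ) * (mult p.2 : ℝ) * ψ (nd T p) := by
    rw [hfun, DT_S hT ψ]
    · field_simp
    · intro u hu
      rw [hψ]
      simp only
      rw [if_neg (by linarith)]
  rw [hDS]
  have hle : ∑ i ∈ Zf T, ∑ j ∈ Zf T, (mult i : ℝ) * (mult j : ℝ) * max 0 (h - |i.im - j.im|) ≤
      (2 * Real.pi / L) * (b * pairCount T (-ε) ε +
        2 * ∑ p ∈ Zf T ×ˢ Zf T, (mult p.1 : ℝ) * (mult p.2 : ℝ) * ψ (nd T p)) := by
    have e7 : ∑ i ∈ Zf T, ∑ j ∈ Zf T, (mult i : ℝ) * (mult j : ℝ) * max 0 (h - |i.im - j.im|) =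
        ∑ p ∈ Zf T ×ˢ Zf T, (mult p.1 : ℝ) * (mult p.2 : ℝ) * max 0 (h - |p.1.im - p.2.im|) := by
      rw [Finset.sum_product]
    rw [e7, two_mul (∑ p ∈ Zf T ×ˢ Zf T, (mult p.1 : ℝ) * (mult p.2 : ℝ) * ψ (nd T p))]
    nth_rewrite 1 [← swap_sum T ψ]
    rw [pairCount_eq, Finset.mul_sum, ← Finset.sum_add_distrib, ← Finset.sum_add_distrib,
      Finset.mul_sum]
    apply Finset.sum_le_sum
    intro p _
    set mm : ℝ := (mult p.1 : ℝ) * (mult p.2 : ℝ) with hmm
    have hmm0 : 0 ≤ mm := by positivity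
    have e2 : h - |p.1.im - p.2.im| = (2 * Real.pi / L) * (b - |nd T p|) := by
      have e3 : |nd T p| = |p.1.im - p.2.im| * L / (2 * Real.pi) := by
        unfold nd
        rw [abs_div, abs_mul, abs_of_pos hL0, abs_of_pos (show 0 < 2 * Real.pi by positivity)]
      rw [e3, hh]
      field_simp
    have e4 : max 0 (h - |p.1.im - p.2.im|) = (2 * Real.pi / L) * max 0 (b - |nd T p|) := by
      rw [e2, mul_max_of_nonneg _ _ (show 0 ≤ 2 * Real.pi / L by positivity), mul_zero]
    rw [e4]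
    have e5 : max 0 (b - |nd T p|) ≤ b * (if nd T p ∈ Icc (-ε) ε then 1 else 0) +
        (ψ (- nd T p) + ψ (nd T p)) := by
      by_cases h1 : nd T p ∈ Icc (-ε) ε
      · rw [if_pos h1]
        have h2 := hψ0 (nd T p)
        have h3 := hψ0 (- nd T p)
        have h4 : max 0 (b - |nd T p|) ≤ b := max_le hb.le (by linarith [abs_nonneg (nd T p)])
        linarith
      · rw [if_neg h1]
        have h5 : ε < |nd T p| := by
          by_contra h6
          rw [not_lt, abs_le] at h6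
          exact h1 h6
        rcases le_total 0 (nd T p) with h6 | h6
        · rw [abs_of_nonneg h6] at h5 ⊢
          have h7 : ψ (nd T p) = max 0 (b - nd T p) := by
            rw [hψ]; simp only; rw [if_pos h5.le]
          have h8 := hψ0 (- nd T p)
          rw [h7]
          linarith
        · rw [abs_of_nonpos h6] at h5 ⊢
          have h7 : ψ (- nd T p) = max 0 (b - - nd T p) := by
            rw [hψ]; simp only; rw [if_pos h5.le]
          have h8 := hψ0 (nd T p)
          rw [h7]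
          linarith
    calc mm * ((2 * Real.pi / L) * max 0 (b - |nd T p|)) =
        (2 * Real.pi / L) * (mm * max 0 (b - |nd T p|)) := by ring
      _ ≤ (2 * Real.pi / L) * (mm * (b * (if nd T p ∈ Icc (-ε) ε then 1 else 0) +
        (ψ (- nd T p) + ψ (nd T p)))) := by gcongr
      _ = _ := by
        congr 1
        split_ifs <;> ring
  have hTh : 0 ≤ T + h := by linarith
  have h1 := hCS.trans (mul_le_mul_of_nonneg_left hle hTh)
  have h2 : (2 * Real.pi / L) * (b ^ 2 * (2 * Real.pi / L) * NT T ^ 2) ≤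
      (2 * Real.pi / L) * ((T + h) * (b * pairCount T (-ε) ε +
        2 * ∑ p ∈ Zf T ×ˢ Zf T, (mult p.1 : ℝ) * (mult p.2 : ℝ) * ψ (nd T p))) := by
    have e5 : (2 * Real.pi / L) * (b ^ 2 * (2 * Real.pi / L) * NT T ^ 2) = (h * NT T) ^ 2 := by
      rw [hh]; ring
    rw [e5]
    refine h1.trans (le_of_eq ?_)
    ring
  exact le_of_mul_le_mul_left h2 (by positivity)

/-- The mesoscopic lower bound in the form needed. -/
lemma CS_hyp
    (hD : ∀ δ : ℝ, 0 < δ → ∃ ε : ℝ, 0 < ε ∧ ∀ᶠ T : ℝ in atTop,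
      pairCount T (-ε) ε ≤ (1 + δ) * (T * Real.log T / (2 * Real.pi)))
    (b : ℝ) (hb : 0 < b) (δ : ℝ) (hδ : 0 < δ) :
    ∃ t₀ : ℝ, ∀ᶠ T in atTop,
      b ^ 2 ≤ b + δ + 2 * DT.S T (fun t => if t₀ ≤ t then max 0 (b - Real.exp t) else 0) := by
  obtain ⟨ε, hε, hev⟩ := hD (δ / (2 * b)) (by positivity)
  refine ⟨Real.log ε, ?_⟩
  set e : ℝ := min (1 / 2) (δ / (8 * b ^ 2)) with he
  have he0 : 0 < e := by rw [he]; positivity
  have he2 : e ≤ 1 / 2 := min_le_left _ _
  have he3 : e * (8 * b ^ 2) ≤ δ := by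
    have : e ≤ δ / (8 * b ^ 2) := min_le_right _ _
    rwa [le_div_iff₀ (by positivity)] at this
  obtain ⟨T₀, hT₀⟩ := NT_lower e he0
  have hpi := Real.pi_pos
  filter_upwards [hev, eventually_ge_atTop T₀, eventually_ge_atTop (Real.exp 1),
    eventually_ge_atTop (2 * Real.pi * b / e)] with T hTD h1 h2 h3
  have hexp : 1 < Real.exp 1 := Real.one_lt_exp_iff.mpr one_pos
  have hT1 : 1 < T := lt_of_lt_of_le hexp h2
  have hT0 : 0 < T := by linarith
  have hL1 : 1 ≤ Real.log T := by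
    have := Real.log_le_log (Real.exp_pos 1) h2
    rwa [Real.log_exp] at this
  have hCS := CS_family hT1 hb hε
  set L := Real.log T with hL
  set D := DT.S T (fun t => if Real.log ε ≤ t then max 0 (b - Real.exp t) else 0) with hDdef
  have hD0 : 0 ≤ D := DT.S_nonneg T fun t => by
    split_ifs
    · exact le_max_left _ _
    · exact le_rfl
  have hN := hT₀ T h1
  have hS : T * L / (2 * Real.pi) = SN T := rfl
  rw [hS] at hN hTD
  have hS0 : 0 < SN T := SN_pos hT1
  have hN2 : ((1 - e) * SN T) ^ 2 ≤ NT T ^ 2 := by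
    apply pow_le_pow_left₀ _ hN
    apply mul_nonneg (by linarith) hS0.le
  set X := b * (1 + δ / (2 * b)) + 2 * D with hX
  have hX0 : 0 ≤ X := by positivity
  have h4 : b ^ 2 * (2 * Real.pi / L) * ((1 - e) * SN T) ^ 2 ≤
      (T + 2 * Real.pi * b / L) * (SN T * X) := by
    refine le_trans (mul_le_mul_of_nonneg_left hN2 (by positivity)) (hCS.trans ?_)
    apply mul_le_mul_of_nonneg_left _ (by positivity)
    have h5 : b * pairCount T (-ε) ε ≤ b * ((1 + δ / (2 * b)) * SN T) :=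
      mul_le_mul_of_nonneg_left hTD hb.le
    rw [hX]
    linarith
  have h5 : b ^ 2 * (2 * Real.pi / L) * ((1 - e) * SN T) ^ 2 =
      (T * SN T) * (b ^ 2 * (1 - e) ^ 2) := by
    rw [← hS]; field_simp
  have h6 : T + 2 * Real.pi * b / L ≤ T * (1 + e) := by
    have h7 : 2 * Real.pi * b / L ≤ 2 * Real.pi * b := by
      apply div_le_self (by positivity) hL1
    rw [div_le_iff₀ he0] at h3
    linarith
  have h8 : (T * SN T) * (b ^ 2 * (1 - e) ^ 2) ≤ (T * SN T) * ((1 + e) * X) := by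
    rw [← h5]
    refine h4.trans ?_
    calc (T + 2 * Real.pi * b / L) * (SN T * X) ≤ T * (1 + e) * (SN T * X) :=
          mul_le_mul_of_nonneg_right h6 (by positivity)
      _ = _ := by ring
  have h9 : b ^ 2 * (1 - e) ^ 2 ≤ (1 + e) * X := le_of_mul_le_mul_left h8 (by positivity)
  -- (1-4e)(1+e) ≤ (1-e)²
  have h10 : (1 + e) * (b ^ 2 * (1 - 4 * e)) ≤ (1 + e) * X := by
    refine le_trans ?_ h9
    have h13 : (1 + e) * (1 - 4 * e) ≤ (1 - e) ^ 2 := by nlinarith
    have h14 : b ^ 2 * ((1 + e) * (1 - 4 * e)) ≤ b ^ 2 * (1 - e) ^ 2 :=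
      mul_le_mul_of_nonneg_left h13 (sq_nonneg b)
    linarith
  have h11 : b ^ 2 * (1 - 4 * e) ≤ X := le_of_mul_le_mul_left h10 (by linarith)
  have h12 : b * (1 + δ / (2 * b)) = b + δ / 2 := by field_simp
  rw [hX, h12] at h11
  have h15 : b ^ 2 * (1 - 4 * e) = b ^ 2 - (e * (8 * b ^ 2)) / 2 := by ring
  rw [h15] at h11
  linarith

/-- The one-sided theorem for the zeros of zeta. -/
theorem oneShapeUpper {g : ℝ → ℝ} (hm : Measurable g) (h0 : ∀ u, 0 ≤ g u)
    (hb : ∃ M, ∀ u, g u ≤ M)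
    {a b : ℝ} (ha : 0 < a) (hs : ∀ u, u ∉ Icc a b → g u = 0)
    {p q c : ℝ} (hpq : p < q) (hc : 0 < c) (hl : ∀ u ∈ Ioo p q, c ≤ g u)
    (hU : ∀ α : ℝ, 0 < α → ∀ δ : ℝ, 0 < δ → ∀ᶠ T in atTop,
      pairSum g T α ≤ ((∫ u in Ioi (0:ℝ), g (u / α) * pcDensity u) + δ) *
        (T * Real.log T / (2 * Real.pi)))
    (hD : ∀ δ : ℝ, 0 < δ → ∃ ε : ℝ, 0 < ε ∧ ∀ᶠ T : ℝ in atTop,
      pairCount T (-ε) ε ≤ (1 + δ) * (T * Real.log T / (2 * Real.pi)))
    {α β : ℝ} (hα : 0 < α) (hαβ : α < β) :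
    Tendsto (fun T => pairCount T α β / (T * Real.log T / (2 * Real.pi))) atTop
      (𝓝 (∫ u in α..β, pcDensity u)) := by
  apply windows_of_vague _ hα hαβ
  apply DT.one_sided atTop (shp_of g hm h0 hb ha hs hpq hc hl) fd_dens _ (CS_hyp hD) tri_hyp
  intro τ ε hε
  filter_upwards [hU (Real.exp τ) (Real.exp_pos τ) ε hε, eventually_gt_atTop 1] with T hT hT1
  rw [DT_shape hT1 ha hs τ, Ph_eq, div_le_iff₀ (SN_pos hT1)]
  exact hT

end Pool.Agent.Helper6.Shape
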