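import Pool.Agent.Helper6.Shape.Limit

open MeasureTheory Filter Topology Set
open scoped ENNReal CompactlySupported

namespace Pool.Agent.Helper6.Shape

/-- Shape data: a bounded measurable nonnegative function of bounded support which is bounded below
by a positive constant on an interval. -/
structure Shp (G : ℝ → ℝ) : Prop where
  meas : Measurable G
  nonneg : ∀ t, 0 ≤ G t
  bdd : ∃ M, ∀ t, G t ≤ M
  supp : ∃ A, ∀ t, A < |t| → G t = 0
  low : ∃ p q c, p < q ∧ 0 < c ∧ ∀ t ∈ Icc p q, c ≤ G t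

/-- averaged kernel -/
noncomputable def cv (K G : ℝ → ℝ) (t : ℝ) : ℝ := ∫ τ, K τ * G (t - τ)

variable {K G : ℝ → ℝ}

lemma Shp.norm_bdd (hG : Shp G) : ∃ M, 0 ≤ M ∧ ∀ t, ‖G t‖ ≤ M := by
  obtain ⟨M, hM⟩ := hG.bdd
  refine ⟨M, (hG.nonneg 0).trans (hM 0), fun t => ?_⟩
  rw [Real.norm_of_nonneg (hG.nonneg t)]
  exact hM t

lemma Shp.integrable_mul (hG : Shp G) (hK : Kern K) (a c : ℝ) :
    Integrable (fun τ => K (τ - c) * G (a - τ)) := by
  obtain ⟨M, hM0, hM⟩ := hG.norm_bdd
  have h1 : Integrable (fun τ => K (τ - c)) := by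
    have : Integrable K := hK.cont.integrable_of_hasCompactSupport hK.supp
    exact this.comp_sub_right c
  have h2 : Integrable (fun τ => G (a - τ) * K (τ - c)) := by
    apply Integrable.bdd_mul (c := M) h1
    · exact (hG.meas.comp (by fun_prop)).aestronglyMeasurable
    · exact ae_of_all _ fun τ => hM _
  exact h2.congr (ae_of_all _ fun τ => by ring)

lemma cv_translate (K G : ℝ → ℝ) (a c : ℝ) :
    cv K G (a - c) = ∫ τ, K (τ - c) * G (a - τ) := by
  unfold cv
  rw [← integral_sub_right_eq_self (fun τ => K τ * G (a - c - τ)) c]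
  congr 1
  ext τ
  congr 2
  ring

lemma cv_eq_conv (K G : ℝ → ℝ) :
    cv K G = convolution K G (ContinuousLinearMap.mul ℝ ℝ) volume := rfl

lemma Shp.hasCompactSupport (hG : Shp G) : HasCompactSupport G := by
  obtain ⟨A, hA⟩ := hG.supp
  apply HasCompactSupport.intro (isCompact_Icc (a := -A) (b := A))
  intro t ht
  apply hA
  by_contra h
  rw [not_lt, abs_le] at h
  exact ht h

lemma Shp.integrable (hG : Shp G) : Integrable G := by
  obtain ⟨M, hM0, hM⟩ := hG.norm_bdd
  obtain ⟨A, hA⟩ := hG.supp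
  have h1 : IntegrableOn G (Icc (-A) A) :=
    Measure.integrableOn_of_bounded (M := M) (by simp) hG.meas.aestronglyMeasurable
      (ae_of_all _ fun t => hM t)
  apply (integrableOn_iff_integrable_of_support_subset ?_).mp h1
  intro t ht
  by_contra h
  apply ht
  apply hA
  by_contra h2
  rw [not_lt, abs_le] at h2
  exact h h2

lemma Shp.cv_kern (hG : Shp G) (hK : Kern K) : Kern (cv K G) := by
  refine ⟨?_, ?_, ?_, ?_⟩
  · rw [cv_eq_conv]
    exact hK.supp.continuous_convolution_left _ hK.cont hG.integrable.locallyIntegrable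
  · rw [cv_eq_conv]
    exact hK.supp.convolution _ hG.hasCompactSupport
  · intro t
    exact integral_nonneg fun τ => mul_nonneg (hK.nonneg _) (hG.nonneg _)
  · obtain ⟨t₀, ht₀⟩ := hK.ne
    obtain ⟨p, q, c, hpq, hc, hlow⟩ := hG.low
    refine ⟨t₀ + (p + q) / 2, ?_⟩
    unfold cv
    rw [integral_pos_iff_support_of_nonneg]
    · have hopen : IsOpen ({τ | 0 < K τ} ∩ Ioo (t₀ - (q - p) / 2) (t₀ + (q - p) / 2)) :=
        (isOpen_lt continuous_const hK.cont).inter isOpen_Ioo
      have hne : ({τ | 0 < K τ} ∩ Ioo (t₀ - (q - p) / 2) (t₀ + (q - p) / 2)).Nonempty :=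
        ⟨t₀, ht₀, by constructor <;> linarith⟩
      refine lt_of_lt_of_le (hopen.measure_pos volume hne) (measure_mono ?_)
      rintro τ ⟨h1, h2, h3⟩
      have h4 : c ≤ G (t₀ + (p + q) / 2 - τ) := hlow _ ⟨by linarith, by linarith⟩
      rw [Function.mem_support]
      have : 0 < K τ * G (t₀ + (p + q) / 2 - τ) := mul_pos h1 (by linarith)
      exact this.ne'
    · exact fun τ => mul_nonneg (hK.nonneg _) (hG.nonneg _)
    · have := hG.integrable_mul hK (t₀ + (p + q) / 2) 0
      simpa using this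

variable {ι κ : Type*}

lemma Fam.S_cv (D : Fam ι κ) (hG : Shp G) (hK : Kern K) (i : ι) (c : ℝ) :
    D.S i (fun t => cv K G (t - c)) = ∫ τ, K (τ - c) * D.S i (fun t => G (t - τ)) := by
  unfold Fam.S
  simp_rw [cv_translate, Finset.mul_sum]
  rw [integral_finsetSum]
  · apply Finset.sum_congr rfl
    intro p _
    rw [← integral_const_mul]
    congr 1
    ext τ
    ring
  · intro p _
    refine ((hG.integrable_mul hK (D.x i p) c).const_mul (D.w i p)).congr (ae_of_all _ fun τ => ?_)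
    simp only
    ring

lemma Shp.translate_le (hG : Shp G) {c R₁ : ℝ} (hK : ∀ t, R₁ < |t| → K t = 0) :
    ∃ M R, 0 ≤ M ∧ ∀ τ, K (τ - c) ≠ 0 → ∀ t, G (t - τ) ≤ M * (Icc (-R) R).indicator 1 t := by
  obtain ⟨M, hM0, hM⟩ := hG.norm_bdd
  obtain ⟨A, hA⟩ := hG.supp
  refine ⟨M, |A| + |R₁| + |c|, hM0, ?_⟩
  intro τ hτ t
  have h1 : |τ - c| ≤ R₁ := by
    by_contra h
    exact hτ (hK _ (not_le.mp h))
  by_cases ht : t ∈ Icc (-(|A| + |R₁| + |c|)) (|A| + |R₁| + |c|)
  · rw [indicator_of_mem ht]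
    simp only [Pi.one_apply, mul_one]
    exact (le_abs_self _).trans (hM _)
  · rw [indicator_of_notMem ht, mul_zero]
    apply le_of_eq
    apply hA
    rw [mem_Icc, ← abs_le, not_le] at ht
    have h2 : |t| ≤ |t - τ| + |τ - c| + |c| := by
      calc |t| = |(t - τ) + (τ - c) + c| := by congr 1; ring
        _ ≤ _ := abs_add_three _ _ _
    have h3 : R₁ ≤ |R₁| := le_abs_self _
    have h4 : A ≤ |A| := le_abs_self _
    linarith

lemma Kern.exists_radius (hK : Kern K) : ∃ R, ∀ t, R < |t| → K t = 0 := by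
  obtain ⟨R, hR⟩ := hK.supp.isCompact.isBounded.subset_closedBall (0:ℝ)
  refine ⟨R, fun t ht => ?_⟩
  by_contra h0
  have h1 : t ∈ tsupport K := subset_tsupport _ h0
  have h2 := hR h1
  rw [Metric.mem_closedBall, Real.dist_eq, sub_zero] at h2
  linarith

lemma Fam.measurable_S (D : Fam ι κ) (hG : Shp G) (i : ι) :
    Measurable (fun τ => D.S i (fun t => G (t - τ))) := by
  unfold Fam.S
  apply Finset.measurable_fun_sum
  intro p _
  exact (hG.meas.comp (by fun_prop)).const_mul _

/-- Averaging an upper bound (or an asymptotic) over translates. -/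
lemma Fam.avg_upper (D : Fam ι κ) (l : Filter ι) [l.IsCountablyGenerated] (hLB : D.LB l)
    (hG : Shp G) (hK : Kern K) (Φ : ℝ → ℝ) (hΦm : Measurable Φ) (hΦ0 : ∀ τ, 0 ≤ Φ τ)
    (hΦb : ∀ R, ∃ B, ∀ τ, |τ| ≤ R → Φ τ ≤ B)
    (hU : ∀ τ, ∀ ε : ℝ, 0 < ε → ∀ᶠ i in l, D.S i (fun t => G (t - τ)) ≤ Φ τ + ε) (c : ℝ) :
    Tendsto (fun i => ∫ τ, K (τ - c) * max (D.S i (fun t => G (t - τ))) (Φ τ)) l
      (𝓝 (∫ τ, K (τ - c) * Φ τ)) := by
  obtain ⟨R₁, hR₁⟩ := hK.exists_radius
  obtain ⟨M, R, hM, hMR⟩ := hG.translate_le (c := c) hR₁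
  obtain ⟨B, hB⟩ := hLB R
  obtain ⟨B', hB'⟩ := hΦb (R₁ + |c|)
  have hKint : Integrable (fun τ => K (τ - c)) :=
    (hK.cont.integrable_of_hasCompactSupport hK.supp).comp_sub_right c
  apply tendsto_integral_filter_of_dominated_convergence
    (fun τ => K (τ - c) * max (M * B) B')
  · refine Eventually.of_forall fun i => ?_
    apply Measurable.aestronglyMeasurable
    apply Measurable.mul
    · exact hK.cont.measurable.comp (by fun_prop)
    · exact (D.measurable_S hG i).max hΦm
  · filter_upwards [hB] with i hi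
    refine ae_of_all _ fun τ => ?_
    rw [norm_mul, Real.norm_of_nonneg (hK.nonneg _)]
    by_cases h0 : K (τ - c) = 0
    · rw [h0, zero_mul, zero_mul]
    · apply mul_le_mul_of_nonneg_left _ (hK.nonneg _)
      have h1 : 0 ≤ max (D.S i (fun t => G (t - τ))) (Φ τ) := le_max_of_le_right (hΦ0 τ)
      rw [Real.norm_of_nonneg h1]
      apply max_le_max
      · calc D.S i (fun t => G (t - τ)) ≤ D.S i (fun t => M * (Icc (-R) R).indicator 1 t) :=
            D.S_mono i (hMR τ h0)
          _ = M * D.S i ((Icc (-R) R).indicator 1) := by rw [D.S_smul]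
          _ ≤ M * B := mul_le_mul_of_nonneg_left hi hM
      · apply hB'
        have h2 : |τ - c| ≤ R₁ := by
          by_contra h
          exact h0 (hR₁ _ (not_le.mp h))
        calc |τ| = |(τ - c) + c| := by congr 1; ring
          _ ≤ |τ - c| + |c| := abs_add_le _ _
          _ ≤ _ := by linarith
  · exact hKint.mul_const _
  · refine ae_of_all _ fun τ => ?_
    apply Tendsto.const_mul
    rw [Metric.tendsto_nhds]
    intro ε hε
    filter_upwards [hU τ (ε / 2) (by linarith)] with i hi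
    rw [Real.dist_eq, abs_lt]
    constructor
    · have := le_max_right (D.S i (fun t => G (t - τ))) (Φ τ); linarith
    · have : max (D.S i (fun t => G (t - τ))) (Φ τ) ≤ Φ τ + ε / 2 := max_le hi (by linarith)
      linarith

/-- Upper bounds for all translates of the shape imply upper bounds for the averaged kernel. -/
lemma Fam.cv_upper (D : Fam ι κ) (l : Filter ι) [l.IsCountablyGenerated] (hLB : D.LB l)
    (hG : Shp G) (hK : Kern K) (Φ : ℝ → ℝ) (hΦm : Measurable Φ) (hΦ0 : ∀ τ, 0 ≤ Φ τ)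
    (hΦb : ∀ R, ∃ B, ∀ τ, |τ| ≤ R → Φ τ ≤ B)
    (hU : ∀ τ, ∀ ε : ℝ, 0 < ε → ∀ᶠ i in l, D.S i (fun t => G (t - τ)) ≤ Φ τ + ε) (c : ℝ)
    {ε : ℝ} (hε : 0 < ε) :
    ∀ᶠ i in l, D.S i (fun t => cv K G (t - c)) ≤ (∫ τ, K (τ - c) * Φ τ) + ε := by
  have h1 := D.avg_upper l hLB hG hK Φ hΦm hΦ0 hΦb hU c
  rw [Metric.tendsto_nhds] at h1
  obtain ⟨R₁, hR₁⟩ := hK.exists_radius
  obtain ⟨B', hB'⟩ := hΦb (R₁ + |c|)
  have hKint : Integrable (fun τ => K (τ - c)) :=
    (hK.cont.integrable_of_hasCompactSupport hK.supp).comp_sub_right c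
  have hΦint : Integrable (fun τ => K (τ - c) * Φ τ) := by
    apply Integrable.mono' (hKint.mul_const B')
    · exact ((hK.cont.measurable.comp (by fun_prop)).mul hΦm).aestronglyMeasurable
    · refine ae_of_all _ fun τ => ?_
      rw [norm_mul, Real.norm_of_nonneg (hK.nonneg _), Real.norm_of_nonneg (hΦ0 _)]
      by_cases h0 : K (τ - c) = 0
      · rw [h0, zero_mul, zero_mul]
      · apply mul_le_mul_of_nonneg_left _ (hK.nonneg _)
        apply hB'
        have h2 : |τ - c| ≤ R₁ := by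
          by_contra h
          exact h0 (hR₁ _ (not_le.mp h))
        calc |τ| = |(τ - c) + c| := by congr 1; ring
          _ ≤ |τ - c| + |c| := abs_add_le _ _
          _ ≤ _ := by linarith
  filter_upwards [h1 ε hε] with i hi
  rw [Real.dist_eq, abs_lt] at hi
  have hSint : Integrable (fun τ => K (τ - c) * D.S i (fun t => G (t - τ))) := by
    unfold Fam.S
    simp_rw [Finset.mul_sum]
    apply integrable_finsetSum
    intro p _
    refine ((hG.integrable_mul hK (D.x i p) c).const_mul (D.w i p)).congr (ae_of_all _ fun τ => ?_)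
    simp only
    ring
  have h2 : D.S i (fun t => cv K G (t - c)) ≤
      ∫ τ, K (τ - c) * max (D.S i (fun t => G (t - τ))) (Φ τ) := by
    rw [D.S_cv hG hK]
    apply integral_mono hSint
    · have : (fun τ => K (τ - c) * max (D.S i (fun t => G (t - τ))) (Φ τ)) =
          fun τ => max (K (τ - c) * D.S i (fun t => G (t - τ))) (K (τ - c) * Φ τ) := by
        ext τ
        rw [mul_max_of_nonneg _ _ (hK.nonneg _)]
      rw [this]
      exact hSint.sup hΦint
    · intro τ
      exact mul_le_mul_of_nonneg_left (le_max_left _ _) (hK.nonneg _)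
  linarith

end Pool.Agent.Helper6.Shape
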