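import Pool.Agent.Helper6.Shape.Unique

open MeasureTheory Filter Topology Set
open scoped ENNReal CompactlySupported

namespace Pool.Agent.Helper6.Shape

/-- A family of finitely supported nonnegative weighted point configurations on the line. -/
structure Fam (ι κ : Type*) where
  Z : ι → Finset κ
  w : ι → κ → ℝ
  x : ι → κ → ℝ
  nonneg : ∀ i p, 0 ≤ w i p

variable {ι κ : Type*}

/-- Weighted sum of a test function. -/
noncomputable def Fam.S (D : Fam ι κ) (i : ι) (φ : ℝ → ℝ) : ℝ := ∑ p ∈ D.Z i, D.w i p * φ (D.x i p)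

lemma Fam.S_mono (D : Fam ι κ) (i : ι) {φ ψ : ℝ → ℝ} (h : ∀ t, φ t ≤ ψ t) : D.S i φ ≤ D.S i ψ :=
  Finset.sum_le_sum fun p _ => mul_le_mul_of_nonneg_left (h _) (D.nonneg i p)

lemma Fam.S_nonneg (D : Fam ι κ) (i : ι) {φ : ℝ → ℝ} (h : ∀ t, 0 ≤ φ t) : 0 ≤ D.S i φ :=
  Finset.sum_nonneg fun p _ => mul_nonneg (D.nonneg i p) (h _)

lemma Fam.S_add (D : Fam ι κ) (i : ι) (φ ψ : ℝ → ℝ) :
    D.S i (fun t => φ t + ψ t) = D.S i φ + D.S i ψ := by
  unfold Fam.S
  rw [← Finset.sum_add_distrib]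
  exact Finset.sum_congr rfl fun p _ => by ring

lemma Fam.S_smul (D : Fam ι κ) (i : ι) (c : ℝ) (φ : ℝ → ℝ) :
    D.S i (fun t => c * φ t) = c * D.S i φ := by
  unfold Fam.S
  rw [Finset.mul_sum]
  exact Finset.sum_congr rfl fun p _ => by ring

lemma Fam.S_sum (D : Fam ι κ) (i : ι) {J : Type*} (s : Finset J) (φ : J → ℝ → ℝ) :
    D.S i (fun t => ∑ j ∈ s, φ j t) = ∑ j ∈ s, D.S i (φ j) := by
  unfold Fam.S
  rw [Finset.sum_comm]
  exact Finset.sum_congr rfl fun p _ => by rw [Finset.mul_sum]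

/-- Local boundedness along a filter. -/
def Fam.LB (D : Fam ι κ) (l : Filter ι) : Prop :=
  ∀ R : ℝ, ∃ B : ℝ, ∀ᶠ i in l, D.S i ((Icc (-R) R).indicator 1) ≤ B

lemma exists_support_bound (φ : C_c(ℝ, ℝ)) : ∃ R M : ℝ, 0 ≤ M ∧
    ∀ t, |φ t| ≤ M * (Icc (-R) R).indicator 1 t := by
  obtain ⟨M, hM⟩ := φ.hasCompactSupport.exists_bound_of_continuous φ.continuous
  obtain ⟨R, hR⟩ := φ.hasCompactSupport.isCompact.isBounded.subset_closedBall (0:ℝ)
  refine ⟨R, max M 0, le_max_right _ _, ?_⟩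
  intro t
  by_cases ht : t ∈ Icc (-R) R
  · rw [indicator_of_mem ht]
    simp only [Pi.one_apply, mul_one]
    exact (hM t).trans (le_max_left _ _)
  · rw [indicator_of_notMem ht, mul_zero]
    have : φ t = 0 := by
      by_contra h0
      apply ht
      have h1 : t ∈ tsupport φ := subset_tsupport _ h0
      have h2 := hR h1
      rw [Metric.mem_closedBall, Real.dist_eq, sub_zero, abs_le] at h2
      exact h2
    rw [this, abs_zero]

lemma Fam.abs_S_le (D : Fam ι κ) (i : ι) (φ ψ : ℝ → ℝ) (h : ∀ t, |φ t| ≤ ψ t) :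
    |D.S i φ| ≤ D.S i ψ := by
  rw [abs_le]
  constructor
  · have : D.S i (fun t => (-1) * ψ t) ≤ D.S i φ := D.S_mono i fun t => by
      have := (abs_le.mp (h t)).1; linarith
    rw [D.S_smul] at this
    linarith
  · exact D.S_mono i fun t => (abs_le.mp (h t)).2

lemma Fam.exists_lim (D : Fam ι κ) (U : Ultrafilter ι) (hLB : D.LB U) (φ : C_c(ℝ, ℝ)) :
    ∃ L : ℝ, Tendsto (fun i => D.S i φ) U (𝓝 L) := by
  obtain ⟨R, M, hM, hb⟩ := exists_support_bound φ
  obtain ⟨B, hB⟩ := hLB R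
  have hev : ∀ᶠ i in (U : Filter ι), D.S i φ ∈ Icc (-(M * B)) (M * B) := by
    filter_upwards [hB] with i hi
    have h1 := D.abs_S_le i φ _ hb
    rw [D.S_smul] at h1
    have h2 : M * D.S i ((Icc (-R) R).indicator 1) ≤ M * B := mul_le_mul_of_nonneg_left hi hM
    exact abs_le.mp (h1.trans h2)
  obtain ⟨L, _, hL⟩ := isCompact_Icc.ultrafilter_le_nhds (U.map fun i => D.S i φ)
    (le_principal_iff.mpr hev)
  exact ⟨L, hL⟩

/-- The limit functional along an ultrafilter. -/
noncomputable def Fam.Lam (D : Fam ι κ) (U : Ultrafilter ι) (hLB : D.LB U) : C_c(ℝ, ℝ) →ₚ[ℝ] ℝ where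
  toFun φ := Classical.choose (D.exists_lim U hLB φ)
  map_add' φ ψ := by
    apply tendsto_nhds_unique (Classical.choose_spec (D.exists_lim U hLB (φ + ψ)))
    have := (Classical.choose_spec (D.exists_lim U hLB φ)).add
      (Classical.choose_spec (D.exists_lim U hLB ψ))
    refine this.congr fun i => ?_
    rw [← D.S_add]
    rfl
  map_smul' c φ := by
    apply tendsto_nhds_unique (Classical.choose_spec (D.exists_lim U hLB (c • φ)))
    have := (Classical.choose_spec (D.exists_lim U hLB φ)).const_mul c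
    refine this.congr fun i => ?_
    rw [← D.S_smul]
    rfl
  monotone' := by
    intro φ ψ hle
    apply le_of_tendsto_of_tendsto (Classical.choose_spec (D.exists_lim U hLB φ))
      (Classical.choose_spec (D.exists_lim U hLB ψ))
    exact Eventually.of_forall fun i => D.S_mono i fun t => hle t

/-- Existence of a vague limit measure along an ultrafilter. -/
theorem Fam.exists_limit (D : Fam ι κ) (U : Ultrafilter ι) (hLB : D.LB U) :
    ∃ ν : Measure ℝ, ν.Regular ∧
      ∀ φ : C_c(ℝ, ℝ), Tendsto (fun i => D.S i φ) U (𝓝 (∫ t, φ t ∂ν)) := by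
  refine ⟨RealRMK.rieszMeasure (D.Lam U hLB), inferInstance, ?_⟩
  intro φ
  rw [RealRMK.integral_rieszMeasure]
  exact Classical.choose_spec (D.exists_lim U hLB φ)

/-- Local boundedness from one kernel. -/
lemma Fam.LB_of_kernel (D : Fam ι κ) (l : Filter ι) {G : ℝ → ℝ} (hG0 : ∀ t, 0 ≤ G t)
    {p q c₀ : ℝ} (hpq : p < q) (hc₀ : 0 < c₀) (hG : ∀ t ∈ Icc p q, c₀ ≤ G t)
    (hB : ∀ c, ∃ B, ∀ᶠ i in l, D.S i (fun t => G (t - c)) ≤ B) : D.LB l := by
  intro R
  obtain ⟨n, hn⟩ := exists_nat_gt ((2 * R) / (q - p))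
  have hqp : 0 < q - p := by linarith
  rw [div_lt_iff₀ hqp] at hn
  set τ : ℕ → ℝ := fun k => -R - p + k * (q - p) with hτ
  choose B hB using hB
  refine ⟨∑ k ∈ Finset.range (n + 1), c₀⁻¹ * B (τ k), ?_⟩
  have hall : ∀ᶠ i in l, ∀ k ∈ Finset.range (n + 1), D.S i (fun t => G (t - τ k)) ≤ B (τ k) :=
    (Filter.eventually_all_finset _).mpr fun k _ => hB (τ k)
  filter_upwards [hall] with i hi
  have h1 : D.S i ((Icc (-R) R).indicator 1) ≤
      D.S i (fun t => ∑ k ∈ Finset.range (n + 1), c₀⁻¹ * G (t - τ k)) := by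
    apply D.S_mono
    intro t
    by_cases ht : t ∈ Icc (-R) R
    · rw [indicator_of_mem ht]
      simp only [Pi.one_apply]
      have hk0 : 0 ≤ (t + R) / (q - p) := div_nonneg (by linarith [ht.1]) hqp.le
      set k := ⌊(t + R) / (q - p)⌋₊ with hk
      have hk1 := Nat.floor_le hk0
      have hk2 := Nat.lt_floor_add_one ((t + R) / (q - p))
      rw [← hk] at hk1 hk2
      rw [le_div_iff₀ hqp] at hk1
      rw [div_lt_iff₀ hqp] at hk2
      have hkn : k ∈ Finset.range (n + 1) := by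
        rw [Finset.mem_range]
        have : (k : ℝ) * (q - p) < (n + 1 : ℝ) * (q - p) := by nlinarith [ht.2]
        have := lt_of_mul_lt_mul_right this hqp.le
        exact_mod_cast this
      have hmem : t - τ k ∈ Icc p q := by
        simp only [hτ]
        constructor <;> nlinarith
      calc (1:ℝ) = c₀⁻¹ * c₀ := by field_simp
        _ ≤ c₀⁻¹ * G (t - τ k) := mul_le_mul_of_nonneg_left (hG _ hmem) (by positivity)
        _ ≤ _ := Finset.single_le_sum (f := fun k => c₀⁻¹ * G (t - τ k))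
            (fun k _ => mul_nonneg (by positivity) (hG0 _)) hkn
    · rw [indicator_of_notMem ht]
      exact Finset.sum_nonneg fun k _ => mul_nonneg (by positivity) (hG0 _)
  refine h1.trans ?_
  rw [D.S_sum]
  apply Finset.sum_le_sum
  intro k hk
  rw [D.S_smul]
  exact mul_le_mul_of_nonneg_left (hi k hk) (by positivity)

end Pool.Agent.Helper6.Shape
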