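import Pool.Agent.Helper6.Shape.Two

open MeasureTheory Filter Topology Set
open scoped ENNReal CompactlySupported

namespace Pool.Agent.Helper6.Shape

variable {h : ℝ → ℝ}

/-- The triangle functional in logarithmic coordinates. -/
noncomputable def Tri (ν : Measure ℝ) (b : ℝ) : ℝ≥0∞ :=
  ∫⁻ t, ENNReal.ofReal (max 0 (b - Real.exp t)) ∂ν

/-- Mixing triangles into dilates of the kernel. -/
lemma mix (hh : Kern h) (ν : Measure ℝ) [SFinite ν] (B : ℝ) :
    ∫⁻ c, ENNReal.ofReal (max 0 (B - Real.exp c)) * ∫⁻ t, ENNReal.ofReal (h (t - c)) ∂ν =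
      ∫⁻ s, ENNReal.ofReal (h s * Real.exp (-s)) * Tri ν (B * Real.exp s) := by
  have hhm := hh.cont.measurable
  have e1 : ∀ c, ENNReal.ofReal (max 0 (B - Real.exp c)) * ∫⁻ t, ENNReal.ofReal (h (t - c)) ∂ν =
      ∫⁻ t, ENNReal.ofReal (max 0 (B - Real.exp c)) * ENNReal.ofReal (h (t - c)) ∂ν := by
    intro c
    rw [lintegral_const_mul' _ _ ENNReal.ofReal_ne_top]
  simp_rw [e1]
  rw [← lintegral_lintegral_swap (μ := ν) (ν := volume)
    (f := fun t c => ENNReal.ofReal (max 0 (B - Real.exp c)) * ENNReal.ofReal (h (t - c)))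
    (Measurable.aemeasurable (by unfold Function.uncurry; fun_prop))]
  have e2 : ∀ t : ℝ, ∫⁻ c, ENNReal.ofReal (max 0 (B - Real.exp c)) * ENNReal.ofReal (h (t - c)) =
      ∫⁻ s, ENNReal.ofReal (h s * Real.exp (-s)) *
        ENNReal.ofReal (max 0 (B * Real.exp s - Real.exp t)) := by
    intro t
    have e3 : (fun c => ENNReal.ofReal (max 0 (B - Real.exp c)) * ENNReal.ofReal (h (t - c))) =
        fun c => (fun s => ENNReal.ofReal (h s * Real.exp (-s)) *
        ENNReal.ofReal (max 0 (B * Real.exp s - Real.exp t))) (t - c) := by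
      ext c
      simp only
      rw [← ENNReal.ofReal_mul (le_max_left _ _),
        ← ENNReal.ofReal_mul (mul_nonneg (hh.nonneg _) (Real.exp_pos _).le)]
      congr 1
      have h1 : max 0 (B * Real.exp (t - c) - Real.exp t) =
          Real.exp (t - c) * max 0 (B - Real.exp c) := by
        rw [mul_max_of_nonneg _ _ (Real.exp_pos _).le, mul_zero, mul_sub]
        congr 1
        rw [← Real.exp_add]
        ring_nf
      rw [h1]
      have h2 : Real.exp (-(t - c)) * Real.exp (t - c) = 1 := by
        rw [← Real.exp_add]; simp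
      calc max 0 (B - Real.exp c) * h (t - c) =
          (Real.exp (-(t - c)) * Real.exp (t - c)) * (h (t - c) * max 0 (B - Real.exp c)) := by
            rw [h2]; ring
        _ = _ := by ring
    rw [e3, lintegral_sub_left_eq_self (fun s => ENNReal.ofReal (h s * Real.exp (-s)) *
        ENNReal.ofReal (max 0 (B * Real.exp s - Real.exp t))) t]
  simp_rw [e2]
  rw [lintegral_lintegral_swap (Measurable.aemeasurable (by unfold Function.uncurry; fun_prop))]
  congr 1
  ext s
  rw [lintegral_const_mul' _ _ ENNReal.ofReal_ne_top]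
  rfl

lemma Tri_lt_top (μ₀ : Measure ℝ)
    (hfin : ∫⁻ t, ENNReal.ofReal (Real.exp (-2 * t)) ∂μ₀ < ∞) (b : ℝ) : Tri μ₀ b < ∞ := by
  unfold Tri
  have h1 : ∀ t : ℝ, ENNReal.ofReal (max 0 (b - Real.exp t)) ≤
      ENNReal.ofReal (|b| ^ 3) * ENNReal.ofReal (Real.exp (-2 * t)) := by
    intro t
    rw [← ENNReal.ofReal_mul (by positivity)]
    apply ENNReal.ofReal_le_ofReal
    apply max_le (by positivity)
    rcases le_total b (Real.exp t) with h2 | h2
    · have : 0 ≤ |b| ^ 3 * Real.exp (-2 * t) := by positivity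
      linarith
    · have hb : 0 < b := lt_of_lt_of_le (Real.exp_pos t) h2
      rw [abs_of_pos hb]
      have h3 : Real.exp (2 * t) ≤ b ^ 2 := by
        have : Real.exp (2 * t) = Real.exp t ^ 2 := by
          rw [← Real.exp_nat_mul]; norm_num
        rw [this]
        exact pow_le_pow_left₀ (Real.exp_pos t).le h2 2
      have h4 : 1 ≤ b ^ 2 * Real.exp (-2 * t) := by
        have h5 : Real.exp (2 * t) * Real.exp (-2 * t) = 1 := by
          rw [← Real.exp_add]; simp
        calc 1 = Real.exp (2 * t) * Real.exp (-2 * t) := h5.symm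
          _ ≤ b ^ 2 * Real.exp (-2 * t) := mul_le_mul_of_nonneg_right h3 (Real.exp_pos _).le
      have h6 := Real.exp_pos t
      nlinarith
  refine lt_of_le_of_lt (lintegral_mono h1) ?_
  rw [lintegral_const_mul' _ _ ENNReal.ofReal_ne_top]
  exact ENNReal.mul_lt_top ENNReal.ofReal_lt_top hfin

/-- Abstract one-sided theorem for measures. -/
theorem one_sided_measure (hh : Kern h) (ν μ₀ : Measure ℝ) [SFinite ν] [SFinite μ₀]
    (hfin : ∫⁻ t, ENNReal.ofReal (Real.exp (-2 * t)) ∂μ₀ < ∞)
    (hle : ∀ c, ∫⁻ t, ENNReal.ofReal (h (t - c)) ∂ν ≤ ∫⁻ t, ENNReal.ofReal (h (t - c)) ∂μ₀)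
    (hb : ∀ b : ℝ, 0 < b → ENNReal.ofReal (b ^ 2) ≤ ENNReal.ofReal b + 2 * Tri ν b)
    (hc : ∀ η : ℝ, 0 < η → ∃ b₀ : ℝ, ∀ b, b₀ ≤ b →
      2 * Tri μ₀ b ≤ ENNReal.ofReal (b ^ 2 - b + η * b)) :
    ν = μ₀ := by
  have hhm := hh.cont.measurable
  set P₀ : ℝ → ℝ≥0∞ := fun c => ∫⁻ t, ENNReal.ofReal (h (t - c)) ∂μ₀ with hP₀
  set P₁ : ℝ → ℝ≥0∞ := fun c => ∫⁻ t, ENNReal.ofReal (h (t - c)) ∂ν with hP₁
  have hP₀m : Measurable P₀ := by
    apply Measurable.lintegral_prod_left' (f := fun p : ℝ × ℝ => ENNReal.ofReal (h (p.1 - p.2)))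
    fun_prop
  have hP₁m : Measurable P₁ := by
    apply Measurable.lintegral_prod_left' (f := fun p : ℝ × ℝ => ENNReal.ofReal (h (p.1 - p.2)))
    fun_prop
  obtain ⟨R₁, hR₁⟩ := hh.exists_radius
  set Hn : ℝ := ∫ s, h s with hHn
  have hHn0 : 0 ≤ Hn := integral_nonneg hh.nonneg
  have hhint : Integrable h := hh.cont.integrable_of_hasCompactSupport hh.supp
  -- comparison for large B
  have hmain : ∀ η : ℝ, 0 < η → ∃ B₀ : ℝ, ∀ B, B₀ ≤ B →
      2 * ∫⁻ c, ENNReal.ofReal (max 0 (B - Real.exp c)) * P₀ c ≤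
        2 * (∫⁻ c, ENNReal.ofReal (max 0 (B - Real.exp c)) * P₁ c) +
          ENNReal.ofReal (η * B * Hn) := by
    intro η hη
    obtain ⟨b₀, hb₀⟩ := hc η hη
    refine ⟨max 1 b₀ * Real.exp R₁, fun B hB => ?_⟩
    have hB0 : 0 < B := lt_of_lt_of_le (by positivity) hB
    rw [hP₀, hP₁, mix hh μ₀ B, mix hh ν B]
    rw [← lintegral_const_mul' _ _ (by simp), ← lintegral_const_mul' _ _ (by simp)]
    have e1 : ENNReal.ofReal (η * B * Hn) = ∫⁻ s, ENNReal.ofReal (η * B * h s) := by
      rw [hHn, ← integral_const_mul, ofReal_integral_eq_lintegral_ofReal (hhint.const_mul _)]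
      exact ae_of_all _ fun s => mul_nonneg (by positivity) (hh.nonneg s)
    rw [e1, ← lintegral_add_right _ (by fun_prop)]
    apply lintegral_mono
    intro s
    simp only
    by_cases hs : h s = 0
    · simp [hs]
    · have hsR : |s| ≤ R₁ := by
        by_contra h1
        exact hs (hR₁ _ (not_le.mp h1))
      have hbig : max 1 b₀ ≤ B * Real.exp s := by
        have h1 : Real.exp (-R₁) ≤ Real.exp s := Real.exp_le_exp.mpr (abs_le.mp hsR).1
        calc max 1 b₀ = max 1 b₀ * Real.exp R₁ * Real.exp (-R₁) := by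
              rw [mul_assoc, ← Real.exp_add]; simp
          _ ≤ B * Real.exp (-R₁) := mul_le_mul_of_nonneg_right hB (Real.exp_pos _).le
          _ ≤ B * Real.exp s := mul_le_mul_of_nonneg_left h1 hB0.le
      set b := B * Real.exp s with hbdef
      have hb1 : 1 ≤ b := (le_max_left _ _).trans hbig
      have hb2 : b₀ ≤ b := (le_max_right _ _).trans hbig
      have h3 : 2 * Tri μ₀ b ≤ 2 * Tri ν b + ENNReal.ofReal (η * b) := by
        refine (hb₀ b hb2).trans ?_
        have h4 : b ^ 2 - b + η * b = (b ^ 2 - b) + η * b := rfl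
        rw [ENNReal.ofReal_add (by nlinarith) (by positivity)]
        gcongr
        have h5 := hb b (by linarith)
        rw [ENNReal.ofReal_sub _ (by linarith)]
        exact tsub_le_iff_left.mpr h5
      calc 2 * (ENNReal.ofReal (h s * Real.exp (-s)) * Tri μ₀ b) =
          ENNReal.ofReal (h s * Real.exp (-s)) * (2 * Tri μ₀ b) := by ring
        _ ≤ ENNReal.ofReal (h s * Real.exp (-s)) * (2 * Tri ν b + ENNReal.ofReal (η * b)) := by
            gcongr
        _ = 2 * (ENNReal.ofReal (h s * Real.exp (-s)) * Tri ν b) +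
            ENNReal.ofReal (h s * Real.exp (-s)) * ENNReal.ofReal (η * b) := by ring
        _ = 2 * (ENNReal.ofReal (h s * Real.exp (-s)) * Tri ν b) +
            ENNReal.ofReal (η * B * h s) := by
            congr 1
            rw [← ENNReal.ofReal_mul (mul_nonneg (hh.nonneg _) (Real.exp_pos _).le)]
            congr 1
            rw [hbdef]
            have h2 : Real.exp (-s) * Real.exp s = 1 := by rw [← Real.exp_add]; simp
            calc h s * Real.exp (-s) * (η * (B * Real.exp s)) =
                (Real.exp (-s) * Real.exp s) * (η * B * h s) := by ring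
              _ = _ := by rw [h2, one_mul]
  -- finiteness
  have hIfin : ∀ B, ∫⁻ c, ENNReal.ofReal (max 0 (B - Real.exp c)) * P₀ c < ∞ := by
    intro B
    have h1 : ∀ c : ℝ, ENNReal.ofReal (max 0 (B - Real.exp c)) * P₀ c ≤
        ENNReal.ofReal (|B| ^ 3) * (ENNReal.ofReal (Real.exp (-2 * c)) * P₀ c) := by
      intro t
      rw [← mul_assoc, ← ENNReal.ofReal_mul (by positivity)]
      gcongr
      apply max_le (by positivity)
      rcases le_total B (Real.exp t) with h2 | h2
      · have : 0 ≤ |B| ^ 3 * Real.exp (-2 * t) := by positivity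
        linarith
      · have hb : 0 < B := lt_of_lt_of_le (Real.exp_pos t) h2
        rw [abs_of_pos hb]
        have h3 : Real.exp (2 * t) ≤ B ^ 2 := by
          have : Real.exp (2 * t) = Real.exp t ^ 2 := by
            rw [← Real.exp_nat_mul]; norm_num
          rw [this]
          exact pow_le_pow_left₀ (Real.exp_pos t).le h2 2
        have h4 : 1 ≤ B ^ 2 * Real.exp (-2 * t) := by
          have h5 : Real.exp (2 * t) * Real.exp (-2 * t) = 1 := by
            rw [← Real.exp_add]; simp
          calc 1 = Real.exp (2 * t) * Real.exp (-2 * t) := h5.symm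
            _ ≤ B ^ 2 * Real.exp (-2 * t) := mul_le_mul_of_nonneg_right h3 (Real.exp_pos _).le
        have h6 := Real.exp_pos t
        nlinarith
    refine lt_of_le_of_lt (lintegral_mono h1) ?_
    rw [lintegral_const_mul' _ _ ENNReal.ofReal_ne_top]
    apply ENNReal.mul_lt_top ENNReal.ofReal_lt_top
    rw [hP₀, ← lint_weight hh μ₀]
    exact ENNReal.mul_lt_top hfin ENNReal.ofReal_lt_top
  -- the deficiency vanishes on each half line
  have hdef : ∀ c₁ : ℝ, ∫⁻ c in Iic c₁, (P₀ c - P₁ c) = 0 := by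
    intro c₁
    have hsmall : ∀ η : ℝ, 0 < η → ∫⁻ c in Iic c₁, (P₀ c - P₁ c) ≤ ENNReal.ofReal (η * Hn) := by
      intro η hη
      obtain ⟨B₀, hB₀⟩ := hmain η hη
      set B := max B₀ (2 * Real.exp c₁) with hBdef
      have hB1 : B₀ ≤ B := le_max_left _ _
      have hB2 : 2 * Real.exp c₁ ≤ B := le_max_right _ _
      have hBpos : 0 < B := lt_of_lt_of_le (by positivity) hB2
      have h1 := hB₀ B hB1
      have h2 : ∫⁻ c, ENNReal.ofReal (max 0 (B - Real.exp c)) * (P₀ c - P₁ c) =
          (∫⁻ c, ENNReal.ofReal (max 0 (B - Real.exp c)) * P₀ c) -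
          ∫⁻ c, ENNReal.ofReal (max 0 (B - Real.exp c)) * P₁ c := by
        rw [← lintegral_sub]
        · congr 1
          ext c
          rw [ENNReal.mul_sub]
          intro _ _
          exact ENNReal.ofReal_ne_top
        · exact (by fun_prop : Measurable fun c : ℝ => ENNReal.ofReal (max 0 (B - Real.exp c))).mul hP₁m
        · refine (lt_of_le_of_lt (lintegral_mono fun c => ?_) (hIfin B)).ne
          gcongr
          exact hle c
        · refine ae_of_all _ fun c => ?_
          show ENNReal.ofReal (max 0 (B - Real.exp c)) * P₁ c ≤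
            ENNReal.ofReal (max 0 (B - Real.exp c)) * P₀ c
          gcongr
          exact hle c
      have h3 : 2 * ∫⁻ c, ENNReal.ofReal (max 0 (B - Real.exp c)) * (P₀ c - P₁ c) ≤
          ENNReal.ofReal (η * B * Hn) := by
        rw [h2, ENNReal.mul_sub (fun _ _ => by simp)]
        exact tsub_le_iff_left.mpr h1
      have h4 : ENNReal.ofReal B * ∫⁻ c in Iic c₁, (P₀ c - P₁ c) ≤
          2 * ∫⁻ c, ENNReal.ofReal (max 0 (B - Real.exp c)) * (P₀ c - P₁ c) := by
        rw [← lintegral_const_mul' _ _ ENNReal.ofReal_ne_top, ← lintegral_const_mul' _ _ (by simp),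
          ← lintegral_indicator measurableSet_Iic]
        apply lintegral_mono
        intro c
        simp only
        by_cases hcm : c ∈ Iic c₁
        · rw [indicator_of_mem hcm, ← mul_assoc]
          gcongr
          rw [show (2 : ℝ≥0∞) = ENNReal.ofReal 2 by simp, ← ENNReal.ofReal_mul (by norm_num)]
          apply ENNReal.ofReal_le_ofReal
          have h5 : Real.exp c ≤ Real.exp c₁ := Real.exp_le_exp.mpr hcm
          have h6 := le_max_right 0 (B - Real.exp c)
          linarith
        · rw [indicator_of_notMem hcm]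
          exact bot_le
      have h5 : ENNReal.ofReal B * ∫⁻ c in Iic c₁, (P₀ c - P₁ c) ≤
          ENNReal.ofReal B * ENNReal.ofReal (η * Hn) := by
        refine (h4.trans h3).trans (le_of_eq ?_)
        rw [← ENNReal.ofReal_mul hBpos.le]
        congr 1
        ring
      exact (ENNReal.mul_le_mul_iff_right (by simpa using hBpos) ENNReal.ofReal_ne_top).mp h5
    have hle0 : ∫⁻ c in Iic c₁, (P₀ c - P₁ c) ≤ 0 := by
      apply ENNReal.le_of_forall_pos_le_add
      intro ε hε _
      rw [zero_add]
      refine (hsmall ((ε : ℝ) / (Hn + 1)) (by positivity)).trans ?_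
      rw [← ENNReal.ofReal_coe_nnreal]
      apply ENNReal.ofReal_le_ofReal
      rw [div_mul_eq_mul_div, div_le_iff₀ (by positivity)]
      have : (0:ℝ) ≤ ε := ε.coe_nonneg
      nlinarith
    exact le_antisymm hle0 bot_le
  have hae : ∀ᵐ c, P₁ c = P₀ c := by
    have h1 : ∀ n : ℕ, ∀ᵐ c ∂(volume.restrict (Iic (n : ℝ))), P₀ c - P₁ c = 0 := by
      intro n
      exact (lintegral_eq_zero_iff (f := fun c => P₀ c - P₁ c) (hP₀m.sub hP₁m)).mp (hdef n)
    have h2 : ∀ᵐ c, ∀ n : ℕ, c ∈ Iic (n : ℝ) → P₀ c - P₁ c = 0 := by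
      rw [ae_all_iff]
      intro n
      exact (ae_restrict_iff' measurableSet_Iic).mp (h1 n)
    filter_upwards [h2] with c hc
    obtain ⟨n, hn⟩ := exists_nat_ge c
    have h3 := hc n hn
    rw [tsub_eq_zero_iff_le] at h3
    exact le_antisymm (hle c) h3
  exact unique hh ν μ₀ hfin hae

variable {G f : ℝ → ℝ} {ι κ : Type*}

/-- truncated triangle in logarithmic coordinates, as a compactly supported function -/
noncomputable def triCut (b t₀ : ℝ) : C_c(ℝ, ℝ) where
  toFun t := max 0 (b - Real.exp t) * max 0 (min 1 (t - t₀ + 1))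
  continuous_toFun := by fun_prop
  hasCompactSupport' := by
    apply HasCompactSupport.intro (isCompact_Icc (a := t₀ - 1) (b := |b|))
    intro t ht
    rw [mem_Icc, not_and_or, not_le, not_le] at ht
    rcases ht with ht | ht
    · have : max 0 (min 1 (t - t₀ + 1)) = 0 :=
        max_eq_left ((min_le_right _ _).trans (by linarith))
      rw [this, mul_zero]
    · have h1 : b ≤ Real.exp t := by
        have := Real.add_one_le_exp t
        have := le_abs_self b
        linarith
      rw [max_eq_left (by linarith), zero_mul]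

lemma triCut_apply (b t₀ t : ℝ) :
    triCut b t₀ t = max 0 (b - Real.exp t) * max 0 (min 1 (t - t₀ + 1)) := rfl

/-- Abstract one-sided theorem for families of weighted points. -/
theorem Fam.one_sided (D : Fam ι κ) (l : Filter ι) [l.IsCountablyGenerated]
    (hG : Shp G) (hf : Dens f)
    (hU : ∀ τ, ∀ ε : ℝ, 0 < ε → ∀ᶠ i in l, D.S i (fun t => G (t - τ)) ≤ Ph G f τ + ε)
    (hCS : ∀ b : ℝ, 0 < b → ∀ δ : ℝ, 0 < δ → ∃ t₀ : ℝ, ∀ᶠ i in l,
      b ^ 2 ≤ b + δ + 2 * D.S i (fun t => if t₀ ≤ t then max 0 (b - Real.exp t) else 0))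
    (hc : ∀ η : ℝ, 0 < η → ∃ b₀ : ℝ, ∀ b, b₀ ≤ b →
      2 * Tri (volume.withDensity fun t => ENNReal.ofReal (f t)) b ≤
        ENNReal.ofReal (b ^ 2 - b + η * b))
    (φ : C_c(ℝ, ℝ)) :
    Tendsto (fun i => D.S i φ) l
      (𝓝 (∫ t, φ t ∂(volume.withDensity fun t => ENNReal.ofReal (f t)))) := by
  have hLB : D.LB l := by
    obtain ⟨p, q, c₀, hpq, hc₀, hlow⟩ := hG.low
    apply D.LB_of_kernel l hG.nonneg hpq hc₀ hlow
    intro c
    exact ⟨Ph G f c + 1, hU c 1 one_pos⟩
  have hK := kern_tent
  set K : ℝ → ℝ := fun t => max 0 (1 - |t|) with hKdef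
  have hh := hG.cv_kern hK
  rw [tendsto_iff_ultrafilter]
  intro U hUl
  have hLBU : D.LB U := fun R => by
    obtain ⟨B, hB⟩ := hLB R
    exact ⟨B, hUl hB⟩
  obtain ⟨ν, hνr, hν⟩ := D.exists_limit U hLBU
  have heq : ν = volume.withDensity fun t => ENNReal.ofReal (f t) := by
    apply one_sided_measure hh ν _ hf.fin _ _ hc
    · intro c
      rw [lint_cv hG hK hf, hh.lint_eq]
      apply ENNReal.ofReal_le_ofReal
      apply le_of_forall_pos_le_add
      intro ε hε
      have h1 := D.cv_upper l hLB hG hK (Ph G f) (Ph_measurable hG hf) (Ph_nonneg hG hf)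
        (Ph_bdd hG hf) hU c hε
      exact le_of_tendsto (hν (hh.cc c)) (hUl h1)
    · intro b hb
      have hkey : ∀ δ : ℝ, 0 < δ → ENNReal.ofReal (b ^ 2) ≤
          ENNReal.ofReal (b + δ) + 2 * Tri ν b := by
        intro δ hδ
        obtain ⟨t₀, ht₀⟩ := hCS b hb δ hδ
        have h1 : ∀ᶠ i in (U : Filter ι), b ^ 2 ≤ b + δ + 2 * D.S i (triCut b t₀) := by
          filter_upwards [hUl ht₀] with i hi
          refine hi.trans ?_
          have : D.S i (fun t => if t₀ ≤ t then max 0 (b - Real.exp t) else 0) ≤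
              D.S i (triCut b t₀) := by
            apply D.S_mono
            intro t
            rw [triCut_apply]
            split_ifs with ht
            · have : max 0 (min 1 (t - t₀ + 1)) = 1 := by
                rw [min_eq_left (by linarith)]
                exact max_eq_right (by norm_num)
              rw [this, mul_one]
            · exact mul_nonneg (le_max_left _ _) (le_max_left _ _)
          linarith
        have h2 : b ^ 2 ≤ b + δ + 2 * ∫ t, triCut b t₀ t ∂ν := by
          apply ge_of_tendsto ((hν (triCut b t₀)).const_mul 2 |>.const_add (b + δ)) h1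
        have h3 : ENNReal.ofReal (∫ t, triCut b t₀ t ∂ν) ≤ Tri ν b := by
          rw [ofReal_integral_eq_lintegral_ofReal]
          · unfold Tri
            apply lintegral_mono
            intro t
            apply ENNReal.ofReal_le_ofReal
            rw [triCut_apply]
            have h4 : max 0 (min 1 (t - t₀ + 1)) ≤ 1 := max_le (by norm_num) (min_le_left _ _)
            calc _ ≤ max 0 (b - Real.exp t) * 1 :=
                  mul_le_mul_of_nonneg_left h4 (le_max_left _ _)
              _ = _ := mul_one _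
          · exact (triCut b t₀).continuous.integrable_of_hasCompactSupport
              (triCut b t₀).hasCompactSupport
          · refine ae_of_all _ fun t => ?_
            show 0 ≤ triCut b t₀ t
            rw [triCut_apply]
            exact mul_nonneg (le_max_left _ _) (le_max_left _ _)
        calc ENNReal.ofReal (b ^ 2) ≤ ENNReal.ofReal (b + δ + 2 * ∫ t, triCut b t₀ t ∂ν) :=
              ENNReal.ofReal_le_ofReal h2
          _ ≤ ENNReal.ofReal (b + δ) + ENNReal.ofReal (2 * ∫ t, triCut b t₀ t ∂ν) :=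
              ENNReal.ofReal_add_le
          _ ≤ _ := by
              gcongr
              rw [ENNReal.ofReal_mul (by norm_num)]
              simp only [ENNReal.ofReal_ofNat]
              gcongr
      apply ENNReal.le_of_forall_pos_le_add
      intro ε hε _
      refine (hkey ε (by exact_mod_cast hε)).trans ?_
      rw [ENNReal.ofReal_add hb.le ε.coe_nonneg, ENNReal.ofReal_coe_nnreal]
      apply le_of_eq
      ring
  rw [← heq]
  exact hν φ

end Pool.Agent.Helper6.Shape
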