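import Pool.Agent.Helper6.Shape.Avg

open MeasureTheory Filter Topology Set
open scoped ENNReal CompactlySupported

namespace Pool.Agent.Helper6.Shape

variable {K G f : ℝ → ℝ} {ι κ : Type*}

/-- translate of a kernel as a compactly supported continuous function -/
noncomputable def Kern.cc (hK : Kern K) (c : ℝ) : C_c(ℝ, ℝ) where
  toFun t := K (t - c)
  continuous_toFun := hK.cont.comp (by fun_prop)
  hasCompactSupport' := by
    have := hK.supp.comp_homeomorph (Homeomorph.subRight c)
    exact this

lemma Kern.cc_apply (hK : Kern K) (c t : ℝ) : hK.cc c t = K (t - c) := rfl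

/-- The tent kernel. -/
lemma kern_tent : Kern (fun t => max 0 (1 - |t|)) := by
  refine ⟨by fun_prop, ?_, fun t => le_max_left _ _, ⟨0, by simp⟩⟩
  apply HasCompactSupport.intro (isCompact_Icc (a := (-1:ℝ)) (b := 1))
  intro t ht
  rw [mem_Icc, ← abs_le, not_le] at ht
  exact max_eq_left (by linarith)

/-- Density data: continuous, nonnegative, finite against exp(-2t). -/
structure Dens (f : ℝ → ℝ) : Prop where
  cont : Continuous f
  nonneg : ∀ t, 0 ≤ f t
  fin : ∫⁻ t, ENNReal.ofReal (Real.exp (-2 * t)) ∂(volume.withDensity fun t => ENNReal.ofReal (f t)) < ∞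

/-- The predicted value. -/
noncomputable def Ph (G f : ℝ → ℝ) (τ : ℝ) : ℝ := ∫ t, G (t - τ) * f t

lemma Ph_nonneg (hG : Shp G) (hf : Dens f) (τ : ℝ) : 0 ≤ Ph G f τ :=
  integral_nonneg fun t => mul_nonneg (hG.nonneg _) (hf.nonneg _)

lemma Ph_measurable (hG : Shp G) (hf : Dens f) : Measurable (Ph G f) := by
  have : StronglyMeasurable (Function.uncurry fun τ t : ℝ => G (t - τ) * f t) := by
    apply Measurable.stronglyMeasurable
    have h1 := hG.meas
    have h2 := hf.cont.measurable
    unfold Function.uncurry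
    fun_prop
  exact (this.integral_prod_right (ν := volume)).measurable

lemma Shp.integrable_mul_cont (hG : Shp G) (hf : Continuous f) (τ : ℝ) :
    Integrable (fun t => G (t - τ) * f t) := by
  have h0 : Integrable (fun s => G s * f (s + τ)) := by
    obtain ⟨A, hA⟩ := hG.supp
    have h1 : IntegrableOn (fun s => f (s + τ) * G s) (Icc (-A) A) := by
      have hc : Continuous (fun s => f (s + τ)) := by fun_prop
      obtain ⟨C, hC⟩ := isCompact_Icc.exists_bound_of_continuousOn (s := Icc (-A) A) hc.continuousOn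
      apply Integrable.bdd_mul (c := C) hG.integrable.integrableOn
      · exact hc.aestronglyMeasurable
      · exact (ae_restrict_iff' measurableSet_Icc).mpr (ae_of_all _ fun t ht => hC t ht)
    have h2 : IntegrableOn (fun s => G s * f (s + τ)) (Icc (-A) A) :=
      h1.congr (ae_of_all _ fun s => by ring)
    apply (integrableOn_iff_integrable_of_support_subset ?_).mp h2
    intro t ht
    by_contra h
    apply ht
    have : G t = 0 := by
      apply hA
      by_contra h2
      rw [not_lt, abs_le] at h2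
      exact h h2
    simp [this]
  have h1 := h0.comp_sub_right τ
  refine h1.congr (ae_of_all _ fun t => ?_)
  simp only
  congr 2
  ring

lemma Ph_bdd (hG : Shp G) (hf : Dens f) (R : ℝ) : ∃ B, ∀ τ, |τ| ≤ R → Ph G f τ ≤ B := by
  obtain ⟨M, hM0, hM⟩ := hG.norm_bdd
  obtain ⟨A, hA⟩ := hG.supp
  refine ⟨∫ t in Icc (-(|A| + R)) (|A| + R), M * f t, ?_⟩
  intro τ hτ
  have hfi : IntegrableOn (fun t => M * f t) (Icc (-(|A| + R)) (|A| + R)) :=
    (hf.cont.integrableOn_Icc).const_mul M
  rw [← integral_indicator measurableSet_Icc]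
  apply integral_mono (hG.integrable_mul_cont hf.cont τ)
    ((integrable_indicator_iff measurableSet_Icc).mpr hfi)
  intro t
  simp only
  by_cases ht : t ∈ Icc (-(|A| + R)) (|A| + R)
  · rw [indicator_of_mem ht]
    exact mul_le_mul_of_nonneg_right ((le_abs_self _).trans (hM _)) (hf.nonneg t)
  · rw [indicator_of_notMem ht]
    have : G (t - τ) = 0 := by
      apply hA
      rw [mem_Icc, ← abs_le, not_le] at ht
      have h2 : |t| ≤ |t - τ| + |τ| := by
        calc |t| = |(t - τ) + τ| := by congr 1; ring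
          _ ≤ _ := abs_add_le _ _
      have h4 : A ≤ |A| := le_abs_self _
      linarith
    rw [this, zero_mul]

/-- Fubini for the averaged kernel. -/
lemma lint_cv (hG : Shp G) (hK : Kern K) (hf : Dens f) (c : ℝ) :
    ∫⁻ t, ENNReal.ofReal (cv K G (t - c)) ∂(volume.withDensity fun t => ENNReal.ofReal (f t)) =
      ENNReal.ofReal (∫ τ, K (τ - c) * Ph G f τ) := by
  have hcvm : Measurable (fun t => ENNReal.ofReal (cv K G (t - c))) :=
    ((hG.cv_kern hK).cont.comp (by fun_prop : Continuous fun t : ℝ => t - c)).measurable.ennreal_ofReal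
  have hfm : Measurable (fun t => ENNReal.ofReal (f t)) := hf.cont.measurable.ennreal_ofReal
  rw [lintegral_withDensity_eq_lintegral_mul _ hfm hcvm]
  simp only [Pi.mul_apply]
  have e1 : ∀ t, ENNReal.ofReal (f t) * ENNReal.ofReal (cv K G (t - c)) =
      ∫⁻ τ, ENNReal.ofReal (K (τ - c)) * ENNReal.ofReal (G (t - τ) * f t) := by
    intro t
    rw [cv_translate, ofReal_integral_eq_lintegral_ofReal (hG.integrable_mul hK t c)
      (ae_of_all _ fun τ => mul_nonneg (hK.nonneg _) (hG.nonneg _)),
      ← lintegral_const_mul' _ _ ENNReal.ofReal_ne_top]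
    congr 1
    ext τ
    rw [← ENNReal.ofReal_mul (hf.nonneg t), ← ENNReal.ofReal_mul (hK.nonneg _)]
    congr 1
    ring
  simp_rw [e1]
  rw [lintegral_lintegral_swap]
  · have e2 : ∀ τ, ∫⁻ t, ENNReal.ofReal (K (τ - c)) * ENNReal.ofReal (G (t - τ) * f t) =
        ENNReal.ofReal (K (τ - c) * Ph G f τ) := by
      intro τ
      rw [lintegral_const_mul' _ _ ENNReal.ofReal_ne_top,
        ← ofReal_integral_eq_lintegral_ofReal (hG.integrable_mul_cont hf.cont τ)
          (ae_of_all _ fun t => mul_nonneg (hG.nonneg _) (hf.nonneg _)),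
        ENNReal.ofReal_mul (hK.nonneg _)]
      rfl
    simp_rw [e2]
    rw [← ofReal_integral_eq_lintegral_ofReal]
    · obtain ⟨R₁, hR₁⟩ := hK.exists_radius
      obtain ⟨B', hB'⟩ := Ph_bdd hG hf (R₁ + |c|)
      have hKint : Integrable (fun τ => K (τ - c)) :=
        (hK.cont.integrable_of_hasCompactSupport hK.supp).comp_sub_right c
      apply Integrable.mono' (hKint.mul_const B')
      · exact ((hK.cont.measurable.comp (by fun_prop)).mul (Ph_measurable hG hf)).aestronglyMeasurable
      · refine ae_of_all _ fun τ => ?_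
        rw [norm_mul, Real.norm_of_nonneg (hK.nonneg _), Real.norm_of_nonneg (Ph_nonneg hG hf _)]
        by_cases h0 : K (τ - c) = 0
        · rw [h0, zero_mul, zero_mul]
        · apply mul_le_mul_of_nonneg_left _ (hK.nonneg _)
          apply hB'
          have h2 : |τ - c| ≤ R₁ := by
            by_contra h
            exact h0 (hR₁ _ (not_le.mp h))
          calc |τ| = |(τ - c) + c| := by congr 1; ring
            _ ≤ |τ - c| + |c| := abs_add_le _ _
            _ ≤ _ := by linarith
    · exact ae_of_all _ fun τ => mul_nonneg (hK.nonneg _) (Ph_nonneg hG hf _)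
  · apply Measurable.aemeasurable
    have h1 := hG.meas
    have h2 := hf.cont.measurable
    have h3 := hK.cont.measurable
    unfold Function.uncurry
    fun_prop

lemma Fam.avg_tendsto (D : Fam ι κ) (l : Filter ι) [l.IsCountablyGenerated] (hLB : D.LB l)
    (hG : Shp G) (hK : Kern K) (Φ : ℝ → ℝ)
    (hT : ∀ τ, Tendsto (fun i => D.S i (fun t => G (t - τ))) l (𝓝 (Φ τ))) (c : ℝ) :
    Tendsto (fun i => D.S i (fun t => cv K G (t - c))) l (𝓝 (∫ τ, K (τ - c) * Φ τ)) := by
  obtain ⟨R₁, hR₁⟩ := hK.exists_radius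
  obtain ⟨M, R, hM, hMR⟩ := hG.translate_le (c := c) hR₁
  obtain ⟨B, hB⟩ := hLB R
  have hKint : Integrable (fun τ => K (τ - c)) :=
    (hK.cont.integrable_of_hasCompactSupport hK.supp).comp_sub_right c
  simp_rw [D.S_cv hG hK]
  apply tendsto_integral_filter_of_dominated_convergence
    (fun τ => K (τ - c) * (M * B))
  · refine Eventually.of_forall fun i => ?_
    apply Measurable.aestronglyMeasurable
    apply Measurable.mul
    · exact hK.cont.measurable.comp (by fun_prop)
    · exact D.measurable_S hG i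
  · filter_upwards [hB] with i hi
    refine ae_of_all _ fun τ => ?_
    rw [norm_mul, Real.norm_of_nonneg (hK.nonneg _)]
    by_cases h0 : K (τ - c) = 0
    · rw [h0, zero_mul, zero_mul]
    · apply mul_le_mul_of_nonneg_left _ (hK.nonneg _)
      rw [Real.norm_of_nonneg (D.S_nonneg i fun t => hG.nonneg _)]
      calc D.S i (fun t => G (t - τ)) ≤ D.S i (fun t => M * (Icc (-R) R).indicator 1 t) :=
            D.S_mono i (hMR τ h0)
        _ = M * D.S i ((Icc (-R) R).indicator 1) := by rw [D.S_smul]
        _ ≤ M * B := mul_le_mul_of_nonneg_left hi hM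
  · exact hKint.mul_const _
  · exact ae_of_all _ fun τ => (hT τ).const_mul _

lemma Kern.lint_eq {h : ℝ → ℝ} (hh : Kern h) (ν : Measure ℝ) [IsFiniteMeasureOnCompacts ν] (c : ℝ) :
    ∫⁻ t, ENNReal.ofReal (h (t - c)) ∂ν = ENNReal.ofReal (∫ t, h (t - c) ∂ν) := by
  rw [ofReal_integral_eq_lintegral_ofReal]
  · exact (hh.cc c).continuous.integrable_of_hasCompactSupport (hh.cc c).hasCompactSupport
  · exact ae_of_all _ fun t => hh.nonneg _

/-- Abstract two-sided theorem. -/
theorem Fam.two_sided (D : Fam ι κ) (l : Filter ι) [l.IsCountablyGenerated]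
    (hG : Shp G) (hf : Dens f)
    (hT : ∀ τ, Tendsto (fun i => D.S i (fun t => G (t - τ))) l (𝓝 (Ph G f τ)))
    (φ : C_c(ℝ, ℝ)) :
    Tendsto (fun i => D.S i φ) l
      (𝓝 (∫ t, φ t ∂(volume.withDensity fun t => ENNReal.ofReal (f t)))) := by
  have hLB : D.LB l := by
    obtain ⟨p, q, c₀, hpq, hc₀, hlow⟩ := hG.low
    apply D.LB_of_kernel l hG.nonneg hpq hc₀ hlow
    intro c
    refine ⟨Ph G f c + 1, ?_⟩
    have := (hT c).eventually_lt_const (show Ph G f c < Ph G f c + 1 by linarith)
    filter_upwards [this] with i hi using hi.le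
  have hK := kern_tent
  set K : ℝ → ℝ := fun t => max 0 (1 - |t|) with hKdef
  have hh := hG.cv_kern hK
  rw [tendsto_iff_ultrafilter]
  intro U hU
  have hLBU : D.LB U := fun R => by
    obtain ⟨B, hB⟩ := hLB R
    exact ⟨B, hU hB⟩
  obtain ⟨ν, hνr, hν⟩ := D.exists_limit U hLBU
  have heq : ν = volume.withDensity fun t => ENNReal.ofReal (f t) := by
    apply unique hh ν _ hf.fin
    refine ae_of_all _ fun c => ?_
    rw [lint_cv hG hK hf, hh.lint_eq]
    congr 1
    apply tendsto_nhds_unique (hν (hh.cc c))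
    have := D.avg_tendsto l hLB hG hK (Ph G f) hT c
    exact this.mono_left hU
  rw [← heq]
  exact hν φ

end Pool.Agent.Helper6.Shape
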