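import Mathlib

open MeasureTheory Filter Topology Set
open scoped ENNReal

namespace Pool.Agent.Helper6.Shape

/-- A continuous nonnegative compactly supported kernel, not identically zero. -/
structure Kern (h : ℝ → ℝ) : Prop where
  cont : Continuous h
  supp : HasCompactSupport h
  nonneg : ∀ t, 0 ≤ h t
  ne : ∃ t, 0 < h t

variable {h : ℝ → ℝ}

lemma Kern.integrable_mul (hh : Kern h) {f : ℝ → ℝ} (hf : Continuous f) :
    Integrable (fun s => h s * f s) := by
  apply Continuous.integrable_of_hasCompactSupport (hh.cont.mul hf)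
  exact hh.supp.mul_right

lemma Kern.integrable_mul_c (hh : Kern h) {f : ℝ → ℂ} (hf : Continuous f) :
    Integrable (fun s => (h s : ℂ) * f s) := by
  apply Continuous.integrable_of_hasCompactSupport
  · exact (Complex.continuous_ofReal.comp hh.cont).mul hf
  · apply HasCompactSupport.mul_right
    exact hh.supp.comp_left Complex.ofReal_zero

/-- The Mellin transform mass at 2. -/
noncomputable def H0 (h : ℝ → ℝ) : ℝ := ∫ s, h s * Real.exp (2 * s)

lemma H0_pos (hh : Kern h) : 0 < H0 h := by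
  unfold H0
  rw [integral_pos_iff_support_of_nonneg]
  · obtain ⟨t, ht⟩ := hh.ne
    have hopen : IsOpen (Function.support fun s => h s * Real.exp (2 * s)) := by
      apply Continuous.isOpen_support
      exact hh.cont.mul (by fun_prop)
    exact hopen.measure_pos volume ⟨t, by simp [ht.ne']⟩
  · intro s
    exact mul_nonneg (hh.nonneg s) (Real.exp_pos _).le
  · exact hh.integrable_mul (by fun_prop)

lemma lint_inner (hh : Kern h) (t : ℝ) :
    ∫⁻ c, ENNReal.ofReal (Real.exp (-2 * c)) * ENNReal.ofReal (h (t - c)) =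
      ENNReal.ofReal (Real.exp (-2 * t)) * ENNReal.ofReal (H0 h) := by
  have e1 : (fun c => ENNReal.ofReal (Real.exp (-2 * c)) * ENNReal.ofReal (h (t - c))) =
      fun c => (fun s => ENNReal.ofReal (Real.exp (-2 * t)) *
        ENNReal.ofReal (h s * Real.exp (2 * s))) (t - c) := by
    ext c
    simp only
    rw [← ENNReal.ofReal_mul (Real.exp_pos _).le, ← ENNReal.ofReal_mul (Real.exp_pos _).le]
    congr 1
    have : Real.exp (-2 * c) = Real.exp (-2 * t) * Real.exp (2 * (t - c)) := by
      rw [← Real.exp_add]; congr 1; ring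
    rw [this]; ring
  rw [e1, lintegral_sub_left_eq_self (fun s => ENNReal.ofReal (Real.exp (-2 * t)) *
        ENNReal.ofReal (h s * Real.exp (2 * s))) t,
    lintegral_const_mul' _ _ ENNReal.ofReal_ne_top]
  congr 1
  rw [H0, ofReal_integral_eq_lintegral_ofReal (hh.integrable_mul (by fun_prop))]
  exact ae_of_all _ fun s => mul_nonneg (hh.nonneg s) (Real.exp_pos _).le

lemma lint_weight (hh : Kern h) (ν : Measure ℝ) [SFinite ν] :
    (∫⁻ t, ENNReal.ofReal (Real.exp (-2 * t)) ∂ν) * ENNReal.ofReal (H0 h) =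
      ∫⁻ c, ENNReal.ofReal (Real.exp (-2 * c)) * ∫⁻ t, ENNReal.ofReal (h (t - c)) ∂ν := by
  have hm : Measurable (fun p : ℝ × ℝ => ENNReal.ofReal (Real.exp (-2 * p.2)) *
      ENNReal.ofReal (h (p.1 - p.2))) := by
    have := hh.cont.measurable
    fun_prop
  have e1 : ∀ c, ENNReal.ofReal (Real.exp (-2 * c)) * ∫⁻ t, ENNReal.ofReal (h (t - c)) ∂ν =
      ∫⁻ t, ENNReal.ofReal (Real.exp (-2 * c)) * ENNReal.ofReal (h (t - c)) ∂ν := by
    intro c
    rw [lintegral_const_mul' _ _ ENNReal.ofReal_ne_top]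
  simp_rw [e1]
  rw [← lintegral_lintegral_swap (μ := ν) (ν := volume)
    (f := fun t c => ENNReal.ofReal (Real.exp (-2 * c)) * ENNReal.ofReal (h (t - c)))
    hm.aemeasurable]
  simp_rw [lint_inner hh]
  rw [lintegral_mul_const' _ _ ENNReal.ofReal_ne_top]

/-- The Fourier-Laplace transform of the kernel on the line Re = 2. -/
noncomputable def Hhat (h : ℝ → ℝ) (ξ : ℝ) : ℂ :=
  ∫ s : ℝ, (h s : ℂ) * Complex.exp ((2 - ξ * Complex.I) * s)

lemma complex_inner (t ξ : ℝ) :
    ∫ c : ℝ, Complex.exp ((-2 + ξ * Complex.I) * c) * (h (t - c) : ℂ) =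
      Complex.exp ((-2 + ξ * Complex.I) * t) * Hhat h ξ := by
  have e1 : (fun c : ℝ => Complex.exp ((-2 + ξ * Complex.I) * c) * (h (t - c) : ℂ)) =
      fun c => (fun s : ℝ => Complex.exp ((-2 + ξ * Complex.I) * t) *
        ((h s : ℂ) * Complex.exp ((2 - ξ * Complex.I) * s))) (t - c) := by
    ext c
    simp only
    have : Complex.exp ((-2 + ξ * Complex.I) * c) = Complex.exp ((-2 + ξ * Complex.I) * t) *
        Complex.exp ((2 - ξ * Complex.I) * ((t - c : ℝ) : ℂ)) := by
      rw [← Complex.exp_add]; congr 1; push_cast; ring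
    rw [this]; ring
  rw [e1, integral_sub_left_eq_self (fun s : ℝ => Complex.exp ((-2 + ξ * Complex.I) * t) *
        ((h s : ℂ) * Complex.exp ((2 - ξ * Complex.I) * s))) volume t, integral_const_mul]
  rfl

lemma complex_weight (hh : Kern h) (ν : Measure ℝ) [SFinite ν]
    (hfin : ∫⁻ t, ENNReal.ofReal (Real.exp (-2 * t)) ∂ν < ∞) (ξ : ℝ) :
    (∫ t : ℝ, Complex.exp ((-2 + ξ * Complex.I) * t) ∂ν) * Hhat h ξ =
      ∫ c : ℝ, Complex.exp ((-2 + ξ * Complex.I) * c) * ((∫ t : ℝ, h (t - c) ∂ν : ℝ) : ℂ) := by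
  have hint : Integrable (Function.uncurry fun (t c : ℝ) =>
      Complex.exp ((-2 + ξ * Complex.I) * c) * (h (t - c) : ℂ)) (ν.prod volume) := by
    constructor
    · apply Continuous.aestronglyMeasurable
      have := hh.cont
      unfold Function.uncurry
      fun_prop
    · unfold HasFiniteIntegral
      have e : ∀ p : ℝ × ℝ, ‖Function.uncurry (fun (t c : ℝ) =>
          Complex.exp ((-2 + ξ * Complex.I) * c) * (h (t - c) : ℂ)) p‖ₑ =
          ENNReal.ofReal (Real.exp (-2 * p.2)) * ENNReal.ofReal (h (p.1 - p.2)) := by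
        intro p
        simp only [Function.uncurry]
        rw [enorm_mul]
        congr 1
        · rw [← ofReal_norm, Complex.norm_exp]
          congr 2
          simp
        · rw [← ofReal_norm, Complex.norm_real, Real.norm_of_nonneg (hh.nonneg _)]
      simp_rw [e]
      have hm : Measurable (fun p : ℝ × ℝ => ENNReal.ofReal (Real.exp (-2 * p.2)) *
          ENNReal.ofReal (h (p.1 - p.2))) := by
        have := hh.cont.measurable
        fun_prop
      rw [lintegral_prod _ hm.aemeasurable]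
      simp_rw [lint_inner hh]
      rw [lintegral_mul_const' _ _ ENNReal.ofReal_ne_top]
      exact ENNReal.mul_lt_top hfin ENNReal.ofReal_lt_top
  have hswap := integral_integral_swap hint
  simp_rw [complex_inner] at hswap
  rw [integral_mul_const] at hswap
  rw [hswap]
  congr 1
  ext c
  rw [integral_const_mul]
  congr 1
  rw [integral_complex_ofReal]

lemma hasCompactSupport_integrableExp (hh : Kern h) :
    ProbabilityTheory.integrableExpSet (id : ℝ → ℝ)
      (volume.withDensity fun s => ENNReal.ofReal (h s)) = Set.univ := by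
  ext t
  simp only [ProbabilityTheory.integrableExpSet, Set.mem_univ, iff_true]
  show Integrable (fun s : ℝ => Real.exp (t * id s)) _
  rw [integrable_withDensity_iff_integrable_smul']
  · have e : (fun s : ℝ => (ENNReal.ofReal (h s)).toReal • Real.exp (t * id s)) =
        fun s => h s * Real.exp (t * s) := by
      ext s
      rw [ENNReal.toReal_ofReal (hh.nonneg s)]
      rfl
    rw [e]
    exact hh.integrable_mul (by fun_prop)
  · exact hh.cont.measurable.ennreal_ofReal
  · exact ae_of_all _ fun s => ENNReal.ofReal_lt_top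

lemma complexMGF_eq (hh : Kern h) (z : ℂ) :
    ProbabilityTheory.complexMGF (id : ℝ → ℝ) (volume.withDensity fun s => ENNReal.ofReal (h s)) z =
      ∫ s : ℝ, (h s : ℂ) * Complex.exp (z * s) := by
  unfold ProbabilityTheory.complexMGF
  rw [integral_withDensity_eq_integral_toReal_smul hh.cont.measurable.ennreal_ofReal
    (ae_of_all _ fun s => ENNReal.ofReal_lt_top)]
  congr 1
  ext s
  rw [ENNReal.toReal_ofReal (hh.nonneg s)]
  simp

lemma Hhat_dense (hh : Kern h) : Dense {ξ : ℝ | Hhat h ξ ≠ 0} := by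
  rw [dense_iff_inter_open]
  intro U hU hne
  obtain ⟨ξ₀, hξ₀⟩ := hne
  by_contra hcon
  rw [Set.not_nonempty_iff_eq_empty] at hcon
  have hzero : ∀ ξ ∈ U, Hhat h ξ = 0 := by
    intro ξ hξ
    by_contra h1
    have : ξ ∈ U ∩ {ξ : ℝ | Hhat h ξ ≠ 0} := ⟨hξ, h1⟩
    rw [hcon] at this
    exact this
  set m : Measure ℝ := volume.withDensity fun s => ENNReal.ofReal (h s) with hm
  set F : ℂ → ℂ := ProbabilityTheory.complexMGF (id : ℝ → ℝ) m with hF
  have hFan : AnalyticOnNhd ℂ F Set.univ := by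
    have := ProbabilityTheory.analyticOnNhd_complexMGF (X := (id : ℝ → ℝ)) (μ := m)
    rw [hasCompactSupport_integrableExp hh] at this
    simpa using this
  have hFH : ∀ ξ : ℝ, F (2 - ξ * Complex.I) = Hhat h ξ := by
    intro ξ
    rw [hF, complexMGF_eq hh]
    rfl
  have htend : Tendsto (fun ξ : ℝ => (2 - ξ * Complex.I : ℂ)) (𝓝[≠] ξ₀)
      (𝓝[≠] (2 - ξ₀ * Complex.I)) := by
    apply tendsto_nhdsWithin_of_tendsto_nhds_of_eventually_within
    · have : Continuous (fun ξ : ℝ => (2 - ξ * Complex.I : ℂ)) := by fun_prop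
      exact (this.tendsto ξ₀).mono_left nhdsWithin_le_nhds
    · filter_upwards [self_mem_nhdsWithin] with ξ hξ heq
      apply hξ
      have h2 : (ξ : ℂ) * Complex.I = ξ₀ * Complex.I := by
        have h3 : (2 - ξ * Complex.I : ℂ) = 2 - ξ₀ * Complex.I := heq
        linear_combination -h3
      have h4 := mul_right_cancel₀ Complex.I_ne_zero h2
      exact_mod_cast h4
  have hfreq : ∃ᶠ z in 𝓝[≠] (2 - ξ₀ * Complex.I : ℂ), F z = 0 := by
    apply htend.frequently
    apply Eventually.frequently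
    filter_upwards [mem_nhdsWithin_of_mem_nhds (hU.mem_nhds hξ₀)] with ξ hξ
    rw [hFH, hzero ξ hξ]
  have hall := hFan.eqOn_zero_of_preconnected_of_frequently_eq_zero isPreconnected_univ
    (Set.mem_univ _) hfreq
  have h2 : F 2 = 0 := hall (Set.mem_univ 2)
  rw [hF, complexMGF_eq hh] at h2
  have h3 : (∫ s : ℝ, (h s : ℂ) * Complex.exp (2 * s)) = ((H0 h : ℝ) : ℂ) := by
    rw [H0, ← integral_complex_ofReal]
    congr 1
    ext s
    push_cast
    rfl
  rw [h3] at h2
  have := H0_pos hh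
  have h5 : H0 h = 0 := by exact_mod_cast h2
  linarith

/-- Uniqueness: two measures with the same integrals against all translates of one kernel agree,
provided one of them has finite mass against exp(-2t). -/
theorem unique (hh : Kern h) (ν₁ ν₂ : Measure ℝ) [SFinite ν₁] [SFinite ν₂]
    (hfin : ∫⁻ t, ENNReal.ofReal (Real.exp (-2 * t)) ∂ν₂ < ∞)
    (heq : ∀ᵐ c, ∫⁻ t, ENNReal.ofReal (h (t - c)) ∂ν₁ = ∫⁻ t, ENNReal.ofReal (h (t - c)) ∂ν₂) :
    ν₁ = ν₂ := by
  have hH0 := H0_pos hh
  have hfin1 : ∫⁻ t, ENNReal.ofReal (Real.exp (-2 * t)) ∂ν₁ < ∞ := by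
    have h1 := lint_weight hh ν₁
    have h2 := lint_weight hh ν₂
    have h0 : ∫⁻ c, ENNReal.ofReal (Real.exp (-2 * c)) * ∫⁻ t, ENNReal.ofReal (h (t - c)) ∂ν₁ =
        ∫⁻ c, ENNReal.ofReal (Real.exp (-2 * c)) * ∫⁻ t, ENNReal.ofReal (h (t - c)) ∂ν₂ := by
      apply lintegral_congr_ae
      filter_upwards [heq] with c hc
      rw [hc]
    rw [h0, ← h2] at h1
    have h3 : ENNReal.ofReal (H0 h) ≠ 0 := by
      rw [Ne, ENNReal.ofReal_eq_zero, not_le]; exact hH0
    have h4 := (ENNReal.mul_left_inj h3 ENNReal.ofReal_ne_top).mp h1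
    rw [h4]; exact hfin
  have hB : ∀ᵐ c, ∫ t, h (t - c) ∂ν₁ = ∫ t, h (t - c) ∂ν₂ := by
    filter_upwards [heq] with c hc
    have hm : Measurable (fun t => h (t - c)) := hh.cont.measurable.comp (by fun_prop)
    rw [integral_eq_lintegral_of_nonneg_ae (ae_of_all _ fun t => hh.nonneg _) hm.aestronglyMeasurable,
      integral_eq_lintegral_of_nonneg_ae (ae_of_all _ fun t => hh.nonneg _) hm.aestronglyMeasurable,
      hc]
  have hwm : Measurable (fun t : ℝ => ENNReal.ofReal (Real.exp (-2 * t))) := by fun_prop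
  set ν₁' := ν₁.withDensity (fun t : ℝ => ENNReal.ofReal (Real.exp (-2 * t))) with hν₁'
  set ν₂' := ν₂.withDensity (fun t : ℝ => ENNReal.ofReal (Real.exp (-2 * t))) with hν₂'
  have : IsFiniteMeasure ν₁' := isFiniteMeasure_withDensity hfin1.ne
  have : IsFiniteMeasure ν₂' := isFiniteMeasure_withDensity hfin.ne
  have hchar : ∀ (ν : Measure ℝ) (ξ : ℝ),
      charFun (ν.withDensity (fun t : ℝ => ENNReal.ofReal (Real.exp (-2 * t)))) ξ =
        ∫ t : ℝ, Complex.exp ((-2 + ξ * Complex.I) * t) ∂ν := by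
    intro ν ξ
    rw [charFun_apply_real, integral_withDensity_eq_integral_toReal_smul hwm
      (ae_of_all _ fun s => ENNReal.ofReal_lt_top)]
    congr 1
    ext t
    rw [ENNReal.toReal_ofReal (Real.exp_pos _).le, Complex.real_smul, Complex.ofReal_exp,
      ← Complex.exp_add]
    congr 1
    push_cast
    ring
  have hcf : charFun ν₁' = charFun ν₂' := by
    apply Continuous.ext_on (Hhat_dense hh) continuous_charFun continuous_charFun
    intro ξ hξ
    have h1 := complex_weight hh ν₁ hfin1 ξ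
    have h2 := complex_weight hh ν₂ hfin ξ
    have h0 : ∫ c : ℝ, Complex.exp ((-2 + ξ * Complex.I) * c) * ((∫ t : ℝ, h (t - c) ∂ν₁ : ℝ) : ℂ) =
        ∫ c : ℝ, Complex.exp ((-2 + ξ * Complex.I) * c) * ((∫ t : ℝ, h (t - c) ∂ν₂ : ℝ) : ℂ) := by
      apply integral_congr_ae
      filter_upwards [hB] with c hc
      rw [hc]
    rw [h0, ← h2] at h1
    have h3 := mul_right_cancel₀ hξ h1
    rw [hν₁', hν₂', hchar, hchar, h3]
  have hν := Measure.ext_of_charFun hcf
  have hinv : ∀ (ν : Measure ℝ),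
      (ν.withDensity (fun t : ℝ => ENNReal.ofReal (Real.exp (-2 * t)))).withDensity
        (fun t : ℝ => ENNReal.ofReal (Real.exp (2 * t))) = ν := by
    intro ν
    rw [← withDensity_mul _ hwm (by fun_prop)]
    have e : ((fun t : ℝ => ENNReal.ofReal (Real.exp (-2 * t))) *
        fun t : ℝ => ENNReal.ofReal (Real.exp (2 * t))) = 1 := by
      ext t
      simp only [Pi.mul_apply, Pi.one_apply]
      rw [← ENNReal.ofReal_mul (Real.exp_pos _).le, ← Real.exp_add]
      simp
    rw [e, withDensity_one]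
  rw [← hinv ν₁, ← hinv ν₂]
  rw [← hν₁', ← hν₂', hν]

end Pool.Agent.Helper6.Shape
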